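import Mathlib

set_option autoImplicit false

/-!
# Project LG: many congruent numbers in all residue classes

Goal: for all `M ≥ 1` there is `c > 0` such that for all large `X` and every residue class modulo `M` which contains
a squarefree number at least `c √X (log X) ^ 4` squarefree congruent numbers `n ≤ X` are in the class.

The numbers are `n = u v (u² - v²) / (Q x y z w)²` with
`u = g Q² A α`, `v = B β`, `u - v = C γ`, `u + v = E ε`,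
`A = n0 n1²`, `B = n2 n3²`, `C = n4 n5²`, `E = n6 n7²` (so `x = n1, y = n3, z = n5, w = n7`),
`n0, …, n7 ≤ Y` (a small power of `X`) pairwise coprime, squarefree and `≡ 1` modulo `Q`,
`α, β, γ, ε` without prime factors `≤ Y`.  There are `≫ √X / (∏ nᵢ (log X)⁴)` of them for each tuple; the tuple is
determined by `(α, β, γ, ε)`, so that every `n` occurs a bounded number of times.
-/

open Finset

namespace Pool.Agent.T2h88.LG

/-- `n` is the area of a right triangle with rational sides -/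
def IsCongruent (n : ℕ) : Prop :=
  ∃ a b c : ℚ, 0 < a ∧ 0 < b ∧ 0 < c ∧ a ^ 2 + b ^ 2 = c ^ 2 ∧ (n : ℚ) = a * b / 2

/-- `n` has no prime factor `≤ y` -/
def Rough (y n : ℕ) : Prop := ∀ p : ℕ, p.Prime → p ≤ y → ¬ p ∣ n

/-- the parameters: `Q` is divisible by all primes `≤ 256`, `g ∣ Q` is squarefree, `ρ` is prime to `Q` -/
structure Par (Q g ρ : ℕ) : Prop where
  Q0 : 0 < Q
  small : ∀ p : ℕ, p.Prime → p ≤ 256 → p ∣ Q
  gQ : g ∣ Q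
  gs : Squarefree g
  ρQ : Nat.Coprime ρ Q

open Classical in
/-- the tuples: `8` pairwise coprime squarefree numbers `≤ Y`, `≡ 1` modulo `Q` -/
noncomputable def Tup (Q Y : ℕ) : Finset (Fin 8 → ℕ) :=
  (Fintype.piFinset (fun _ : Fin 8 => (Icc 1 Y).filter (fun m => m ≡ 1 [MOD Q] ∧ Squarefree m))).filter
    (fun n => ∀ i j, i ≠ j → Nat.Coprime (n i) (n j))

/-- a representation: `u = g Q² A α`, `v = B β`, `u = v + C γ`, `u + v = E ε` -/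
structure IsRep (Q g ρ Y X : ℕ) (n : Fin 8 → ℕ) (α β γ ε : ℕ) : Prop where
  tup : n ∈ Tup Q Y
  e1 : g * Q ^ 2 * (n 0 * n 1 ^ 2) * α = n 2 * n 3 ^ 2 * β + n 4 * n 5 ^ 2 * γ
  e2 : n 6 * n 7 ^ 2 * ε = g * Q ^ 2 * (n 0 * n 1 ^ 2) * α + n 2 * n 3 ^ 2 * β
  α1 : Q ∣ α + ρ
  β1 : β ≡ 1 [MOD Q]
  ra : Rough Y α
  rb : Rough Y β
  rc : Rough Y γ
  re : Rough Y ε
  sa : Squarefree α
  sb : Squarefree β
  sc : Squarefree γ
  se : Squarefree ε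
  co : Nat.Coprime α β
  big : Y ^ 6 < α
  size : (g * Q ^ 2 * (n 0 * n 1 ^ 2) * α) ^ 4 ≤ X * (Q * (n 1 * n 3 * n 5 * n 7)) ^ 2

/-- the number represented -/
def val (g : ℕ) (n : Fin 8 → ℕ) (α β γ ε : ℕ) : ℕ :=
  g * (n 0 * α) * (n 2 * β) * (n 4 * γ) * (n 6 * ε)

/-! ## The number represented -/

/-- VC.  `val * (Q n1 n3 n5 n7)² = u v (u² - v²)` with `u = g Q² A α`, `v = B β`; all positive (`v < u` as `γ > 0`
because squarefree numbers are nonzero); the triangle with sides `(u² - v²) / s`, `2 u v / s`, `(u² + v²) / s`,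
`s = Q n1 n3 n5 n7`, has area `u v (u² - v²) / s² = val`. -/
def S_VC : Prop := ∀ (Q g ρ Y X : ℕ) (n : Fin 8 → ℕ) (α β γ ε : ℕ), Par Q g ρ → IsRep Q g ρ Y X n α β γ ε →
  IsCongruent (val g n α β γ ε)

/-- VX.  `val * s² = u v (u² - v²) ≤ u⁴ ≤ X s²`, `s = Q n1 n3 n5 n7 > 0`. -/
def S_VX : Prop := ∀ (Q g ρ Y X : ℕ) (n : Fin 8 → ℕ) (α β γ ε : ℕ), Par Q g ρ → IsRep Q g ρ Y X n α β γ ε →
  val g n α β γ ε ≤ X

/-- VM.  Modulo `Q`: all `n i ≡ 1`, `u ≡ 0`, `v ≡ 1`, so `γ ≡ -1`, `ε ≡ 1`, `α ≡ -ρ`, and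
`val ≡ g (-ρ) (1) (-1) (1)` (compute in `ZMod Q`). -/
def S_VM : Prop := ∀ (Q g ρ Y X : ℕ) (n : Fin 8 → ℕ) (α β γ ε : ℕ), Par Q g ρ → IsRep Q g ρ Y X n α β γ ε →
  val g n α β γ ε ≡ g * ρ [MOD Q]

/-- VS.  The factors `g, n0, α, n2, β, n4, γ, n6, ε` are squarefree and pairwise coprime
(`Nat.squarefree_mul_iff` or `Nat.squarefree_mul`): `g ∣ Q` is prime to the `n i` (`≡ 1` modulo `Q`); `α, β, γ, ε` are
rough, so prime to all numbers `≤ Y` (positive), in particular to `g`, `Q` (`Q ≤ Y`) and the `n i`.  A prime `p`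
dividing two of `α, β, γ, ε` divides (by the two equations; `p > Y ≥ 2`, `p ∤ 2 g Q n0 ⋯ n7`) both `α` and `β`, contradicting
`co`. -/
def S_VS : Prop := ∀ (Q g ρ Y X : ℕ) (n : Fin 8 → ℕ) (α β γ ε : ℕ), Par Q g ρ → Q ≤ Y →
  IsRep Q g ρ Y X n α β γ ε → Squarefree (val g n α β γ ε)

/-! ## Multiplicity -/

/-- INJ.  Let `A, B, C, E` and `A', B', C', E'` be the numbers of the two tuples, `G = g Q²`.  Then
`G A α - B β = C γ`, `G A' α - B' β = C' γ`, so `G (A C' - A' C) α = (B C' - B' C) β` (in `ℤ`), so `α ∣ B C' - B' C` by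
coprimality, but `|B C' - B' C| < Y ^ 6 < α` (each of `A, …, E'` is between `1` and `Y ^ 3`), so `B C' = B' C` and
then `A C' = A' C`.  In the same way (`G A α + B β = E ε`) `A E' = A' E`, `B E' = B' E`.  As `A, C` are coprime and
`A', C'` are coprime, `A ∣ A'` and `A' ∣ A`, so `A = A'`, similarly `C = C'`, `B = B'`, `E = E'`.  Finally
`n0 n1² = n0' n1'²` with squarefree `n0, n0'` gives `n0 = n0'` and `n1 = n1'` (`Nat.sq_mul_squarefree...`, or compare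
the parity of the exponent of every prime), etc. -/
def S_INJ : Prop := ∀ (Q g ρ Y X : ℕ) (n n' : Fin 8 → ℕ) (α β γ ε : ℕ), Par Q g ρ →
  IsRep Q g ρ Y X n α β γ ε → IsRep Q g ρ Y X n' α β γ ε → n = n'

open Classical in
/-- DIV.  A squarefree `N < Y ^ J` has at most `2 ^ J` divisors without prime factors `≤ Y`: such a divisor is the
product of a subset of the set `F` of the prime factors `> Y` of `N` (`Nat.prod_primeFactors_of_squarefree`), and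
`Y ^ |F| ≤ ∏ p ∈ F, p ≤ N < Y ^ J`, so `|F| < J`. -/
def S_DIV : Prop := ∀ (N Y J : ℕ), 2 ≤ Y → Squarefree N → N < Y ^ J →
  (N.divisors.filter (fun d => Rough Y d)).card ≤ 2 ^ J

/-! ## Sums over the tuples -/

/-- TUP.  Let `Z` be the set of all `m ∈ [1, Y]`, `m ≡ 1` modulo `Q`, and `S = ∑ m ∈ Z, 1 / m`, `H = ∑_{1 ≤ j < J} 1 / j`
where `Z = {1 + Q j | 0 ≤ j < J}`.  `S ≥ (1/2) (1 + H / Q) ≥ c log Y`.  For `d` and `S_d = ∑ m ∈ Z, d ∣ m, 1 / m`: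
`S_d ≤ 2 S / d`: if `d ∣ 1 + Q j` and `d ∣ 1 + Q j'` then `j ≡ j'` modulo `d`
(`d` is prime to `Q`), so `j ↦ j / d` is injective on these `j`, and `1 / (1 + Q j) ≤ 1 / d` if `j / d = 0`,
`≤ 1 / (Q d i)` if `i = j / d ≥ 1`; so `S_d ≤ (1 / d) (1 + H / Q)`.
The sum over all of `Z ^ 8` is `S ^ 8` (`Finset.prod_univ_sum`).  A tuple of `Z ^ 8` which is not in `Tup` has a prime `p`
with `p ^ 2 ∣ n i` (some `i`) or `p ∣ n i`, `p ∣ n j` (some `i ≠ j`), and `p > 256` as `p ∤ Q`; for given `i, p` the sum over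
these tuples is `S_{p²} S ^ 7 ≤ 2 S ^ 8 / p²`, for given `i, j, p` it is `S_p ^ 2 S ^ 6 ≤ 4 S ^ 8 / p ^ 2`.  In total
`≤ (8 * 2 + 28 * 4) S ^ 8 ∑_{p > 256} 1 / p ^ 2 ≤ (128 / 256) S ^ 8` (union over all integers `p > 256`; for unordered
pairs `i < j`). -/
def S_TUP : Prop := ∀ Q : ℕ, 0 < Q → (∀ p : ℕ, p.Prime → p ≤ 256 → p ∣ Q) → ∃ c : ℝ, 0 < c ∧ ∃ Y₀ : ℕ,
  ∀ Y : ℕ, Y₀ ≤ Y → c * Real.log Y ^ 8 ≤ ∑ n ∈ Tup Q Y, (∏ i, (n i : ℝ))⁻¹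

/-! ## Sieve -/

open Classical in
/-- SV (helper88). -/
def S_SV : Prop := ∀ k : ℕ, 1 ≤ k → ∃ K y₀ : ℕ, ∃ c : ℝ, 0 < c ∧ 1 ≤ K ∧ ∀ T y : ℕ, y₀ ≤ y → y ^ K ≤ T →
  ∀ A B : Fin k → ℕ, (∀ p : ℕ, p.Prime → p ≤ k → ∀ i, p ∣ B i) →
  c * T / Real.log y ^ k ≤ (((Icc 1 T).filter
    (fun t => ∀ p : ℕ, p.Prime → p ≤ y → ∀ i, p ∣ B i ∨ ¬ p ∣ A i + B i * t)).card : ℝ)

open Classical in
/-- SQ.  `p ^ 2 ∣ A + B t` implies `p ≤ H`; for every prime `p` in `(y, H]` not dividing `B` at most `T / p ^ 2 + 1` of the `t`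
(they are congruent modulo `p ^ 2`), and `∑_{p > y} T / p ^ 2 ≤ T / y`. -/
def S_SQ : Prop := ∀ A B T y H : ℕ, 1 ≤ y → 0 < A → (∀ t, t ≤ T → A + B * t ≤ H ^ 2) →
  (((Icc 1 T).filter (fun t => ∃ p : ℕ, p.Prime ∧ y < p ∧ ¬ p ∣ B ∧ p ^ 2 ∣ A + B * t)).card : ℝ) ≤ T / y + H

open Classical in
/-- DB.  `b` has at most `log₂ b` prime factors; for each of them, if `> y` and not dividing `B`, at most `T / p + 1` of the `t`. -/
def S_DB : Prop := ∀ A B T y b : ℕ, 1 ≤ y → 0 < b →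
  (((Icc 1 T).filter (fun t => ∃ p : ℕ, p.Prime ∧ y < p ∧ ¬ p ∣ B ∧ p ∣ b ∧ p ∣ A + B * t)).card : ℝ) ≤
    (Nat.log 2 b) * (T / y + 1)

/-- BASE.  Chinese remainder theorem: with `D = g Q³ A C E` there is `u` in `(W, W + D]` with `u ≡ g Q² A α*` modulo
`g Q³ A` (`α* ≡ -ρ` modulo `Q`), `u ≡ v` modulo `C`, `u ≡ -v` modulo `E`; then `α = u / (g Q² A)` etc. -/
def S_BASE : Prop := ∀ (Q g ρ A C E v W : ℕ), 0 < Q → 0 < g → 0 < A → 0 < C → 0 < E →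
  g ∣ Q → Nat.Coprime A Q → Nat.Coprime C Q → Nat.Coprime E Q →
  Nat.Coprime A C → Nat.Coprime A E → Nat.Coprime C E → v ≤ W →
  ∃ α γ ε : ℕ, g * Q ^ 2 * A * α = v + C * γ ∧ E * ε = g * Q ^ 2 * A * α + v ∧ Q ∣ α + ρ ∧
    W < g * Q ^ 2 * A * α ∧ g * Q ^ 2 * A * α ≤ W + g * Q ^ 3 * A * C * E

/-! ## The representations with a given tuple -/

open Classical in
/-- ONE (helper88).  The number of representations with a given tuple. -/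
def S_ONE : Prop := ∀ Q : ℕ, 0 < Q → (∀ p : ℕ, p.Prime → p ≤ 256 → p ∣ Q) → ∃ L : ℕ, ∃ c : ℝ, 0 < c ∧ 1 ≤ L ∧
  ∃ Y₀ : ℕ, ∀ Y : ℕ, Y₀ ≤ Y → ∀ g ρ : ℕ, Par Q g ρ → ∀ X : ℕ, Y ^ L ≤ X → X < Y ^ (2 * L) → ∀ n ∈ Tup Q Y,
  c * Real.sqrt X / ((∏ i, (n i : ℝ)) * Real.log Y ^ 4) ≤
    (({p : ℕ × ℕ × ℕ × ℕ | IsRep Q g ρ Y X n p.1 p.2.1 p.2.2.1 p.2.2.2}.ncard : ℕ) : ℝ)

/-! ## The theorem -/

/-- MAIN (from VC, VX, VM, VS, INJ, DIV, TUP, ONE).  Let `L`, `c` be as in ONE; for large `X` let `Y` be maximal with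
`Y ^ L ≤ X`; then `X < (Y + 1) ^ L ≤ Y ^ (2 L)`, `log X ≤ 2 L log Y`, and `Y → ∞` with `X`.  Let `R` be the finite set
of all `(n, α, β, γ, ε)` with `IsRep` (`n ∈ Tup`, and `α, β, γ, ε` divide `val`, `0 < val ≤ X`).  By ONE and TUP
`|R| ≥ c √X (log Y)^(-4) ∑ 1 / ∏ n i ≥ c c' √X (log Y) ^ 4`.  The map `(n, α, β, γ, ε) ↦ val` to the set of the
squarefree congruent numbers `≤ X`, `≡ g ρ` modulo `Q`, has fibres with at most `(2 ^ (2 L)) ^ 4` elements by INJ and DIV (with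
`J = 2 L`, `α, β, γ, ε` are rough divisors of `val`). -/
def S_MAIN : Prop := ∀ Q : ℕ, 0 < Q → (∀ p : ℕ, p.Prime → p ≤ 256 → p ∣ Q) → ∃ c : ℝ, 0 < c ∧ ∃ X₀ : ℕ,
  ∀ X : ℕ, X₀ ≤ X → ∀ g ρ : ℕ, Par Q g ρ → c * Real.sqrt X * Real.log X ^ 4 ≤
    (({m : ℕ | m ≤ X ∧ Squarefree m ∧ IsCongruent m ∧ m ≡ g * ρ [MOD Q]}.ncard : ℕ) : ℝ)

/-- FIN (from MAIN).  `Q = 256! * M`; for the squarefree number `k` let `g = gcd k Q`, `ρ = k / g`, prime to `Q` as `k` is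
squarefree. -/
def S_FIN : Prop := ∀ M : ℕ, 0 < M → ∃ c : ℝ, 0 < c ∧ ∃ X₀ : ℕ, ∀ X : ℕ, X₀ ≤ X → ∀ k : ℕ, Squarefree k →
  c * Real.sqrt X * Real.log X ^ 4 ≤
    (({m : ℕ | m ≤ X ∧ Squarefree m ∧ IsCongruent m ∧ m ≡ k [MOD M]}.ncard : ℕ) : ℝ)

end Pool.Agent.T2h88.LG
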