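import Mathlib
import Pool.Agent.T2h88.LG.Stm

set_option autoImplicit false

open Finset

namespace Pool.Agent.T2h88.LG

namespace ONE

/-- a constant times a power of `log Y` is at most `Y` -/
lemma ev_log (k : ℕ) (C : ℝ) : ∀ᶠ y : ℕ in Filter.atTop, C * Real.log y ^ k ≤ y := by
  have h1 := isLittleO_log_rpow_rpow_atTop (k : ℝ) (show (0 : ℝ) < 1 by norm_num)
  have h2 := (h1.comp_tendsto tendsto_natCast_atTop_atTop).bound
    (show (0 : ℝ) < 1 / (|C| + 1) by positivity)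
  filter_upwards [h2, Filter.eventually_ge_atTop 1] with y hy hy1
  have hy1' : (1 : ℝ) ≤ y := by exact_mod_cast hy1
  simp only [Function.comp_apply, Real.norm_eq_abs] at hy
  rw [Real.rpow_natCast, Real.rpow_one] at hy
  have h3 : 0 ≤ Real.log y ^ k := pow_nonneg (Real.log_nonneg hy1') _
  rw [abs_of_nonneg h3, abs_of_nonneg (by linarith : (0 : ℝ) ≤ y)] at hy
  have hC : 0 < |C| + 1 := by positivity
  calc C * Real.log y ^ k ≤ (|C| + 1) * Real.log y ^ k :=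
        mul_le_mul_of_nonneg_right (by linarith [le_abs_self C]) h3
    _ ≤ (|C| + 1) * (1 / (|C| + 1) * y) := mul_le_mul_of_nonneg_left hy hC.le
    _ = y := by field_simp

/-- a rough number which is not squarefree is divisible by the square of a large prime -/
lemma rough_sq {y n : ℕ} (h : Rough y n) (hs : ¬ Squarefree n) :
    ∃ p : ℕ, p.Prime ∧ y < p ∧ p ^ 2 ∣ n := by
  rw [Nat.squarefree_iff_prime_squarefree] at hs
  push Not at hs
  obtain ⟨p, hp, hd⟩ := hs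
  refine ⟨p, hp, ?_, by rwa [pow_two]⟩
  by_contra hcon
  push Not at hcon
  exact h p hp hcon (dvd_trans (dvd_mul_right p p) hd)

open Classical in
theorem oneB (hSV : S_SV) (hSQ : S_SQ) : ∀ Q : ℕ, 0 < Q → (∀ p : ℕ, p.Prime → p ≤ 256 → p ∣ Q) →
    ∃ K Y₀ : ℕ, ∃ c : ℝ, 0 < c ∧ ∀ Y : ℕ, Y₀ ≤ Y → ∀ S : ℕ, Y ^ K ≤ S →
      c * S / Real.log Y ≤ (((Icc 1 S).filter
        (fun s => Rough Y (1 + Q * s) ∧ Squarefree (1 + Q * s))).card : ℝ) := by
  intro Q hQ0 hQ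
  obtain ⟨K, y₀, c, hc, hK, h⟩ := hSV 1 le_rfl
  obtain ⟨y1, h1⟩ := Filter.eventually_atTop.1 (ev_log 1 (4 / c))
  refine ⟨K + 5, max y₀ (max y1 (max (2 * Q) 4)), c / 2, by positivity, fun Y hY S hS => ?_⟩
  have hYy : y₀ ≤ Y := (le_max_left _ _).trans hY
  have hY1 : y1 ≤ Y := (le_max_left _ _).trans ((le_max_right _ _).trans hY)
  have hYQ : 2 * Q ≤ Y := (le_max_left _ _).trans
    ((le_max_right _ _).trans ((le_max_right _ _).trans hY))
  have hY4 : 4 ≤ Y := (le_max_right _ _).trans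
    ((le_max_right _ _).trans ((le_max_right _ _).trans hY))
  have hYK : Y ^ K ≤ S := (Nat.pow_le_pow_right (by omega) (by omega)).trans hS
  have hY5 : Y ^ 5 ≤ S := (Nat.pow_le_pow_right (by omega) (by omega)).trans hS
  have h2 := h S Y hYy hYK (fun _ => 1) (fun _ => Q) (fun p hp hp1 _ => hQ p hp (by omega))
  rw [pow_one] at h2
  obtain ⟨H, hH⟩ : ∃ H, H = S / Y := ⟨_, rfl⟩
  -- H² ≥ 1 + Q S
  have hHS : ∀ t, t ≤ S → 1 + Q * t ≤ H ^ 2 := by
    intro t ht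
    have hlt : S < (H + 1) * Y := by
      rw [hH, ← Nat.div_lt_iff_lt_mul (by omega)]
      omega
    have hH4 : Y ^ 4 ≤ H := by
      rw [hH, Nat.le_div_iff_mul_le (by omega)]
      calc Y ^ 4 * Y = Y ^ 5 := by ring
        _ ≤ S := hY5
    have hH1 : 1 ≤ H := le_trans (Nat.one_le_pow _ _ (by omega)) hH4
    have h3 : S ≤ 2 * H * Y := by nlinarith
    calc 1 + Q * t ≤ 1 + Q * S := by gcongr
      _ ≤ 1 + Q * (2 * H * Y) := by gcongr
      _ = 1 + (2 * Q) * Y * H := by ring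
      _ ≤ 1 + Y * Y * H := by gcongr
      _ ≤ H + (Y * Y) * H := by omega
      _ = (1 + Y * Y) * H := by ring
      _ ≤ Y ^ 4 * H := by
        gcongr
        have : Y ^ 4 = (Y * Y) * (Y * Y) := by ring
        rw [this]
        nlinarith [Nat.mul_le_mul hY4 hY4]
      _ ≤ H * H := by gcongr
      _ = H ^ 2 := by ring
  have h3 := hSQ 1 Q S Y H (by omega) one_pos hHS
  have hYr : (4 : ℝ) ≤ Y := by exact_mod_cast hY4
  have hHr : (H : ℝ) ≤ S / Y := by rw [hH]; exact Nat.cast_div_le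
  have hlog : 0 < Real.log Y := Real.log_pos (by linarith)
  have h4 := h1 Y hY1
  rw [pow_one] at h4
  -- 2 S / Y ≤ (c/2) S / log Y
  have h5 : 2 * (S / Y : ℝ) ≤ c / 2 * S / Real.log Y := by
    rw [le_div_iff₀ hlog]
    have h6 : Real.log Y ≤ c / 4 * Y := by
      rw [div_mul_eq_mul_div, div_le_iff₀ hc] at h4
      linarith
    calc 2 * (S / Y : ℝ) * Real.log Y ≤ 2 * (S / Y : ℝ) * (c / 4 * Y) := by gcongr
      _ = c / 2 * S := by field_simp; ring
  -- sets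
  have h7 : ((Icc 1 S).filter (fun t => ∀ p : ℕ, p.Prime → p ≤ Y → ∀ i : Fin 1, p ∣ Q ∨
      ¬ p ∣ 1 + Q * t)) ⊆ ((Icc 1 S).filter (fun s => Rough Y (1 + Q * s) ∧ Squarefree (1 + Q * s))) ∪
      ((Icc 1 S).filter (fun t => ∃ p : ℕ, p.Prime ∧ Y < p ∧ ¬ p ∣ Q ∧ p ^ 2 ∣ 1 + Q * t)) := by
    intro t ht
    rw [mem_filter] at ht
    have hr : Rough Y (1 + Q * t) := by
      intro p hp hpY hd
      rcases ht.2 p hp hpY 0 with h8 | h8
      · have : p ∣ 1 := (Nat.dvd_add_left (h8.mul_right t)).1 hd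
        exact hp.one_lt.ne' (Nat.dvd_one.1 this)
      · exact h8 hd
    rw [mem_union, mem_filter, mem_filter]
    by_cases hs : Squarefree (1 + Q * t)
    · exact Or.inl ⟨ht.1, hr, hs⟩
    · right
      obtain ⟨p, hp, hpy, hpd⟩ := rough_sq hr hs
      refine ⟨ht.1, p, hp, hpy, ?_, hpd⟩
      intro hpQ
      exact absurd (Nat.le_of_dvd hQ0 hpQ) (by omega)
  have h8 := (card_le_card h7).trans (card_union_le _ _)
  have h9 : (((Icc 1 S).filter (fun t => ∀ p : ℕ, p.Prime → p ≤ Y → ∀ i : Fin 1, p ∣ Q ∨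
      ¬ p ∣ 1 + Q * t)).card : ℝ) ≤ (((Icc 1 S).filter
        (fun s => Rough Y (1 + Q * s) ∧ Squarefree (1 + Q * s))).card : ℝ) +
      (((Icc 1 S).filter (fun t => ∃ p : ℕ, p.Prime ∧ Y < p ∧ ¬ p ∣ Q ∧ p ^ 2 ∣ 1 + Q * t)).card : ℝ) := by
    exact_mod_cast h8
  have h10 : c / 2 * S / Real.log Y = c * S / Real.log Y - c / 2 * S / Real.log Y := by ring
  linarith

end ONE

end Pool.Agent.T2h88.LG
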