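import Mathlib
import Pool.Agent.T2h88.LG.OneB

set_option autoImplicit false

open Finset

namespace Pool.Agent.T2h88.LG

namespace ONE

/-- the good times for given base values -/
structure GoodT (Y β α0 γ0 ε0 B1 B2 B3 t : ℕ) : Prop where
  ra : Rough Y (α0 + B1 * t)
  rc : Rough Y (γ0 + B2 * t)
  re : Rough Y (ε0 + B3 * t)
  sa : Squarefree (α0 + B1 * t)
  sc : Squarefree (γ0 + B2 * t)
  se : Squarefree (ε0 + B3 * t)
  co : Nat.Coprime (α0 + B1 * t) β

open Classical in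
theorem oneA (hSV : S_SV) (hSQ : S_SQ) (hDB : S_DB) : ∃ K : ℕ, ∃ c : ℝ, 0 < c ∧ ∀ J : ℕ, ∃ Y₀ : ℕ,
    ∀ Y : ℕ, Y₀ ≤ Y → ∀ Q g ρ A C E v β W T α0 γ0 ε0 : ℕ, Par Q g ρ → Q ≤ Y →
      0 < A → 0 < C → 0 < E → A ≡ 1 [MOD Q] → C ≡ 1 [MOD Q] → E ≡ 1 [MOD Q] →
      (∀ p : ℕ, p.Prime → Y < p → ¬ p ∣ A * C * E) →
      (∀ p : ℕ, p.Prime → p ≤ Y → p ∣ A * C * E * Q → ¬ p ∣ v) → 0 < v →
      g * Q ^ 2 * A * α0 = v + C * γ0 → E * ε0 = g * Q ^ 2 * A * α0 + v → Q ∣ α0 + ρ →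
      v ≤ W → W < g * Q ^ 2 * A * α0 → g * Q ^ 2 * A * α0 ≤ W + g * Q ^ 3 * A * C * E →
      Y ^ K ≤ T → 2 * (W + g * Q ^ 3 * A * C * E * (T + 1)) ≤ T * Y ^ 25 → 0 < β → β ≤ Y ^ J →
      c * T / Real.log Y ^ 3 ≤ (((Icc 1 T).filter
        (fun t => GoodT Y β α0 γ0 ε0 (Q * C * E) (g * Q ^ 3 * A * E) (g * Q ^ 3 * A * C) t)).card : ℝ) := by
  obtain ⟨K, y₀, c, hc, hK, h⟩ := hSV 3 (by norm_num)
  refine ⟨K + 40, c / 2, by positivity, fun J => ?_⟩
  obtain ⟨y1, h1⟩ := Filter.eventually_atTop.1 (ev_log 3 (24 / c))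
  obtain ⟨y2, h2⟩ := Filter.eventually_atTop.1 (ev_log 4 (16 * J / c))
  refine ⟨max y₀ (max y1 (max y2 4)), ?_⟩
  intro Y hY Q g ρ A C E v β W T α0 γ0 ε0 hpar hQY hA0 hC0 hE0 hA1 hC1 hE1 hACE hv hv0 e1 e2 e3 hvW
    hW1 hW2 hT hT2 hβ0 hβ
  have hYy : y₀ ≤ Y := (le_max_left _ _).trans hY
  have hY1 : y1 ≤ Y := (le_max_left _ _).trans ((le_max_right _ _).trans hY)
  have hY2 : y2 ≤ Y := (le_max_left _ _).trans
    ((le_max_right _ _).trans ((le_max_right _ _).trans hY))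
  have hY4 : 4 ≤ Y := (le_max_right _ _).trans
    ((le_max_right _ _).trans ((le_max_right _ _).trans hY))
  have hYK : Y ^ K ≤ T := (Nat.pow_le_pow_right (by omega) (by omega)).trans hT
  have hY40 : Y ^ 40 ≤ T := (Nat.pow_le_pow_right (by omega) (by omega)).trans hT
  have hQ0 := hpar.Q0
  have hg0 : 0 < g := Nat.pos_of_ne_zero hpar.gs.ne_zero
  obtain ⟨B1, hB1⟩ : ∃ B1, B1 = Q * C * E := ⟨_, rfl⟩
  obtain ⟨B2, hB2⟩ : ∃ B2, B2 = g * Q ^ 3 * A * E := ⟨_, rfl⟩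
  obtain ⟨B3, hB3⟩ : ∃ B3, B3 = g * Q ^ 3 * A * C := ⟨_, rfl⟩
  rw [← hB1, ← hB2, ← hB3]
  have hQB1 : Q ∣ B1 := ⟨C * E, by rw [hB1]; ring⟩
  have hQB2 : Q ∣ B2 := ⟨g * Q ^ 2 * A * E, by rw [hB2]; ring⟩
  have hQB3 : Q ∣ B3 := ⟨g * Q ^ 2 * A * C, by rw [hB3]; ring⟩
  have h3 := h T Y hYy hYK ![α0, γ0, ε0] ![B1, B2, B3] (by
    intro p hp hp3 i
    have hpQ : p ∣ Q := hpar.small p hp (by omega)
    fin_cases i
    · exact hpQ.trans hQB1
    · exact hpQ.trans hQB2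
    · exact hpQ.trans hQB3)
  -- the relations at time t
  obtain ⟨D, hD⟩ : ∃ D, D = g * Q ^ 3 * A * C * E := ⟨_, rfl⟩
  have f1 : ∀ t, g * Q ^ 2 * A * (α0 + B1 * t) = v + C * (γ0 + B2 * t) := by
    intro t
    calc g * Q ^ 2 * A * (α0 + B1 * t) = g * Q ^ 2 * A * α0 + g * Q ^ 2 * A * B1 * t := by ring
      _ = v + C * γ0 + g * Q ^ 2 * A * B1 * t := by rw [e1]
      _ = v + C * (γ0 + B2 * t) := by rw [hB1, hB2]; ring
  have f2 : ∀ t, E * (ε0 + B3 * t) = g * Q ^ 2 * A * (α0 + B1 * t) + v := by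
    intro t
    calc E * (ε0 + B3 * t) = E * ε0 + E * B3 * t := by ring
      _ = g * Q ^ 2 * A * α0 + v + E * B3 * t := by rw [e2]
      _ = g * Q ^ 2 * A * (α0 + B1 * t) + v := by rw [hB1, hB3]; ring
  have f3 : ∀ t, Q ∣ (α0 + B1 * t) + ρ := by
    intro t
    have : (α0 + B1 * t) + ρ = (α0 + ρ) + B1 * t := by ring
    rw [this]
    exact dvd_add e3 (hQB1.mul_right t)
  have f4 : ∀ t, g * Q ^ 2 * A * (α0 + B1 * t) = g * Q ^ 2 * A * α0 + D * t := by
    intro t; rw [hB1, hD]; ring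
  -- coprimality to Q
  have cQ : ∀ m : ℕ, m ≡ 1 [MOD Q] → ∀ p : ℕ, p.Prime → p ∣ Q → ¬ p ∣ m := by
    intro m hm p hp hpQ hpm
    have h5 : m ≡ 1 [MOD p] := hm.of_dvd hpQ
    have h6 := (Nat.modEq_zero_iff_dvd.2 hpm).symm.trans h5
    have h7 : p ∣ 1 := (Nat.modEq_zero_iff_dvd.1 h6.symm)
    exact hp.one_lt.ne' (Nat.dvd_one.1 h7)
  -- small primes do not divide v and two of them
  have key : ∀ p : ℕ, p.Prime → p ≤ Y → p ∣ A * C * E * Q → p ∣ v → False :=
    fun p hp hpY hd hpv => hv p hp hpY hd hpv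
  have d2 : ∀ p : ℕ, p.Prime → p ∣ E → p ≠ 2 := by
    intro p hp hpE h2
    subst h2
    exact cQ E hE1 2 hp (hpar.small 2 hp (by norm_num)) hpE
  have d2C : ∀ p : ℕ, p.Prime → p ∣ C → p ≠ 2 := by
    intro p hp hpE h2
    subst h2
    exact cQ C hC1 2 hp (hpar.small 2 hp (by norm_num)) hpE
  -- from the sieve
  have rough : ∀ t, (∀ p : ℕ, p.Prime → p ≤ Y → ∀ i : Fin 3,
      p ∣ (![B1, B2, B3] : Fin 3 → ℕ) i ∨
      ¬ p ∣ (![α0, γ0, ε0] : Fin 3 → ℕ) i + (![B1, B2, B3] : Fin 3 → ℕ) i * t) →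
      Rough Y (α0 + B1 * t) ∧ Rough Y (γ0 + B2 * t) ∧ Rough Y (ε0 + B3 * t) := by
    intro t ht
    refine ⟨fun p hp hpY hd => ?_, fun p hp hpY hd => ?_, fun p hp hpY hd => ?_⟩
    · have hb : p ∣ B1 := by
        rcases ht p hp hpY 0 with h5 | h5
        · exact h5
        · exact absurd hd h5
      have hu : p ∣ v + C * (γ0 + B2 * t) := by rw [← f1 t]; exact hd.mul_left _
      have hw : p ∣ E * (ε0 + B3 * t) → p ∣ v := by
        intro h6
        rw [f2 t] at h6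
        exact (Nat.dvd_add_right (hd.mul_left _)).1 h6
      rw [hB1] at hb
      rcases hp.dvd_mul.1 hb with hb | hb
      · rcases hp.dvd_mul.1 hb with hb | hb
        · have h6 : p ∣ (α0 + B1 * t) + ρ := hb.trans (f3 t)
          have h7 : p ∣ ρ := (Nat.dvd_add_right hd).1 h6
          exact hp.one_lt.ne' (Nat.dvd_one.1 (by
            have := Nat.dvd_gcd h7 hb
            rwa [hpar.ρQ] at this))
        · exact key p hp hpY (((hb.mul_left A).mul_right E).mul_right Q)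
            ((Nat.dvd_add_left (hb.mul_right _)).1 hu)
      · exact key p hp hpY ((hb.mul_left _).mul_right Q) (hw (hb.mul_right _))
    · have hb : p ∣ B2 := by
        rcases ht p hp hpY 1 with h5 | h5
        · exact h5
        · exact absurd hd h5
      -- p ∣ u - v
      have hu : p ∣ g * Q ^ 2 * A * (α0 + B1 * t) → p ∣ v := by
        intro h6
        rw [f1 t] at h6
        exact (Nat.dvd_add_left (hd.mul_left C)).1 h6
      have hEv : p ∣ E → False := by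
        intro hpE
        have h6 : p ∣ g * Q ^ 2 * A * (α0 + B1 * t) + v := by
          rw [← f2 t]; exact hpE.mul_right _
        rw [f1 t] at h6
        have h7 : v + C * (γ0 + B2 * t) + v = 2 * v + C * (γ0 + B2 * t) := by ring
        rw [h7] at h6
        have h8 : p ∣ 2 * v := (Nat.dvd_add_left (hd.mul_left C)).1 h6
        rcases hp.dvd_mul.1 h8 with h9 | h9
        · exact d2 p hp hpE ((Nat.prime_dvd_prime_iff_eq hp Nat.prime_two).1 h9)
        · exact key p hp hpY ((hpE.mul_left _).mul_right Q) h9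
      rw [hB2] at hb
      rcases hp.dvd_mul.1 hb with hb | hb
      · have hb' : p ∣ g * Q ^ 2 * A * (α0 + B1 * t) := by
          rcases hp.dvd_mul.1 hb with h6 | h6
          · rcases hp.dvd_mul.1 h6 with h7 | h7
            · exact ((h7.mul_right _).mul_right _).mul_right _
            · exact (((dvd_pow (hp.dvd_of_dvd_pow h7) two_ne_zero).mul_left g).mul_right _).mul_right _
          · exact (h6.mul_left _).mul_right _
        have hbb : p ∣ A * C * E * Q := by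
          rcases hp.dvd_mul.1 hb with h6 | h6
          · rcases hp.dvd_mul.1 h6 with h7 | h7
            · exact (h7.trans hpar.gQ).mul_left _
            · exact (hp.dvd_of_dvd_pow h7).mul_left _
          · exact ((h6.mul_right C).mul_right E).mul_right Q
        exact key p hp hpY hbb (hu hb')
      · exact hEv hb
    · have hb : p ∣ B3 := by
        rcases ht p hp hpY 2 with h5 | h5
        · exact h5
        · exact absurd hd h5
      have hu : p ∣ g * Q ^ 2 * A * (α0 + B1 * t) → p ∣ v := by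
        intro h6
        have h7 : p ∣ g * Q ^ 2 * A * (α0 + B1 * t) + v := by
          rw [← f2 t]; exact hd.mul_left _
        exact (Nat.dvd_add_right h6).1 h7
      have hCv : p ∣ C → False := by
        intro hpC
        have h6 : p ∣ g * Q ^ 2 * A * (α0 + B1 * t) + v := by
          rw [← f2 t]; exact hd.mul_left _
        rw [f1 t] at h6
        have h7 : v + C * (γ0 + B2 * t) + v = 2 * v + C * (γ0 + B2 * t) := by ring
        rw [h7] at h6
        have h8 : p ∣ 2 * v := (Nat.dvd_add_left (hpC.mul_right _)).1 h6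
        rcases hp.dvd_mul.1 h8 with h9 | h9
        · exact d2C p hp hpC ((Nat.prime_dvd_prime_iff_eq hp Nat.prime_two).1 h9)
        · exact key p hp hpY (((hpC.mul_left A).mul_right E).mul_right Q) h9
      rw [hB3] at hb
      rcases hp.dvd_mul.1 hb with hb | hb
      · have hb' : p ∣ g * Q ^ 2 * A * (α0 + B1 * t) := by
          rcases hp.dvd_mul.1 hb with h6 | h6
          · rcases hp.dvd_mul.1 h6 with h7 | h7
            · exact ((h7.mul_right _).mul_right _).mul_right _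
            · exact (((dvd_pow (hp.dvd_of_dvd_pow h7) two_ne_zero).mul_left g).mul_right _).mul_right _
          · exact (h6.mul_left _).mul_right _
        have hbb : p ∣ A * C * E * Q := by
          rcases hp.dvd_mul.1 hb with h6 | h6
          · rcases hp.dvd_mul.1 h6 with h7 | h7
            · exact (h7.trans hpar.gQ).mul_left _
            · exact (hp.dvd_of_dvd_pow h7).mul_left _
          · exact ((h6.mul_right C).mul_right E).mul_right Q
        exact key p hp hpY hbb (hu hb')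
      · exact hCv hb
  -- large primes do not divide the coefficients
  have hlarge : ∀ p : ℕ, p.Prime → Y < p → ¬ p ∣ B1 ∧ ¬ p ∣ B2 ∧ ¬ p ∣ B3 := by
    intro p hp hpY
    have hpQ : ¬ p ∣ Q := fun h5 => absurd (Nat.le_of_dvd hQ0 h5) (by omega)
    have hpg : ¬ p ∣ g := fun h5 => hpQ (h5.trans hpar.gQ)
    have hp3 := hACE p hp hpY
    have hpA : ¬ p ∣ A := fun h5 => hp3 ((h5.mul_right C).mul_right E)
    have hpC : ¬ p ∣ C := fun h5 => hp3 ((h5.mul_left A).mul_right E)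
    have hpE : ¬ p ∣ E := fun h5 => hp3 (h5.mul_left _)
    have hpQ3 : ¬ p ∣ Q ^ 3 := fun h5 => hpQ (hp.dvd_of_dvd_pow h5)
    rw [hB1, hB2, hB3]
    simp only [hp.dvd_mul]
    tauto
  -- H
  obtain ⟨H, hH⟩ : ∃ H, H = T / Y := ⟨_, rfl⟩
  have hH39 : Y ^ 39 ≤ H := by
    rw [hH, Nat.le_div_iff_mul_le (by omega)]
    calc Y ^ 39 * Y = Y ^ 40 := by ring
      _ ≤ T := hY40
  have hH1 : 1 ≤ H := le_trans (Nat.one_le_pow _ _ (by omega)) hH39
  have hlt : T < (H + 1) * Y := by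
    rw [hH, ← Nat.div_lt_iff_lt_mul (by omega)]
    omega
  have hTH : T ≤ 2 * H * Y := by nlinarith
  have hbig : T * Y ^ 25 ≤ H ^ 2 := by
    calc T * Y ^ 25 ≤ 2 * H * Y * Y ^ 25 := by gcongr
      _ = H * (2 * Y ^ 26) := by ring
      _ ≤ H * (Y * Y ^ 26) := by gcongr; omega
      _ = H * Y ^ 27 := by ring
      _ ≤ H * Y ^ 39 := by gcongr <;> omega
      _ ≤ H * H := by gcongr
      _ = H ^ 2 := by ring
  have hcoef1 : 1 ≤ g * Q ^ 2 * A := Nat.one_le_iff_ne_zero.2 (by positivity)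
  have hu_le : ∀ t, t ≤ T → 2 * (g * Q ^ 2 * A * (α0 + B1 * t)) ≤ H ^ 2 := by
    intro t ht
    refine le_trans ?_ hbig
    refine le_trans ?_ hT2
    rw [f4 t, ← hD]
    have : D * t ≤ D * T := Nat.mul_le_mul_left _ ht
    have h5 : D * (T + 1) = D * T + D := by ring
    rw [← hD] at hW2
    omega
  have ha_le : ∀ t, t ≤ T → α0 + B1 * t ≤ H ^ 2 := by
    intro t ht
    have h5 := hu_le t ht
    have h6 : α0 + B1 * t ≤ g * Q ^ 2 * A * (α0 + B1 * t) := Nat.le_mul_of_pos_left _ hcoef1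
    omega
  have hc_le : ∀ t, t ≤ T → γ0 + B2 * t ≤ H ^ 2 := by
    intro t ht
    have h5 := hu_le t ht
    have h6 : γ0 + B2 * t ≤ C * (γ0 + B2 * t) := Nat.le_mul_of_pos_left _ hC0
    have h7 := f1 t
    omega
  have he_le : ∀ t, t ≤ T → ε0 + B3 * t ≤ H ^ 2 := by
    intro t ht
    have h5 := hu_le t ht
    have h6 : ε0 + B3 * t ≤ E * (ε0 + B3 * t) := Nat.le_mul_of_pos_left _ hE0
    have h7 := f2 t
    have h8 := f1 t
    omega
  have hα0 : 0 < α0 := by
    rcases Nat.eq_zero_or_pos α0 with h5 | h5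
    · rw [h5] at hW1; omega
    · exact h5
  have hγ0 : 0 < γ0 := by
    rcases Nat.eq_zero_or_pos γ0 with h5 | h5
    · rw [h5] at e1; omega
    · exact h5
  have hε0 : 0 < ε0 := by
    rcases Nat.eq_zero_or_pos ε0 with h5 | h5
    · rw [h5] at e2; omega
    · exact h5
  have hY0 : 1 ≤ Y := by omega
  have q1 := hSQ α0 B1 T Y H hY0 hα0 ha_le
  have q2 := hSQ γ0 B2 T Y H hY0 hγ0 hc_le
  have q3 := hSQ ε0 B3 T Y H hY0 hε0 he_le
  have q4 := hDB α0 B1 T Y β hY0 hβ0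
  -- inclusion
  have hsub : ((Icc 1 T).filter (fun t => ∀ p : ℕ, p.Prime → p ≤ Y → ∀ i : Fin 3,
      p ∣ (![B1, B2, B3] : Fin 3 → ℕ) i ∨
      ¬ p ∣ (![α0, γ0, ε0] : Fin 3 → ℕ) i + (![B1, B2, B3] : Fin 3 → ℕ) i * t)) ⊆
      ((Icc 1 T).filter (fun t => GoodT Y β α0 γ0 ε0 B1 B2 B3 t)) ∪
      ((((Icc 1 T).filter (fun t => ∃ p : ℕ, p.Prime ∧ Y < p ∧ ¬ p ∣ B1 ∧ p ^ 2 ∣ α0 + B1 * t)) ∪
      ((Icc 1 T).filter (fun t => ∃ p : ℕ, p.Prime ∧ Y < p ∧ ¬ p ∣ B2 ∧ p ^ 2 ∣ γ0 + B2 * t))) ∪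
      (((Icc 1 T).filter (fun t => ∃ p : ℕ, p.Prime ∧ Y < p ∧ ¬ p ∣ B3 ∧ p ^ 2 ∣ ε0 + B3 * t)) ∪
      ((Icc 1 T).filter (fun t => ∃ p : ℕ, p.Prime ∧ Y < p ∧ ¬ p ∣ B1 ∧ p ∣ β ∧ p ∣ α0 + B1 * t)))) := by
    intro t ht
    rw [mem_filter] at ht
    obtain ⟨r1, r2, r3⟩ := rough t ht.2
    simp only [mem_union, mem_filter]
    by_cases s1 : Squarefree (α0 + B1 * t)
    · by_cases s2 : Squarefree (γ0 + B2 * t)
      · by_cases s3 : Squarefree (ε0 + B3 * t)
        · by_cases s4 : Nat.Coprime (α0 + B1 * t) β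
          · left
            exact ⟨ht.1, r1, r2, r3, s1, s2, s3, s4⟩
          · right; right; right
            obtain ⟨p, hp, hp1, hp2⟩ := Nat.Prime.not_coprime_iff_dvd.1 s4
            have hpY : Y < p := by
              by_contra hcon
              push Not at hcon
              exact r1 p hp hcon hp1
            exact ⟨ht.1, p, hp, hpY, (hlarge p hp hpY).1, hp2, hp1⟩
        · right; right; left
          obtain ⟨p, hp, hpY, hpd⟩ := rough_sq r3 s3
          exact ⟨ht.1, p, hp, hpY, (hlarge p hp hpY).2.2, hpd⟩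
      · right; left; right
        obtain ⟨p, hp, hpY, hpd⟩ := rough_sq r2 s2
        exact ⟨ht.1, p, hp, hpY, (hlarge p hp hpY).2.1, hpd⟩
    · right; left; left
      obtain ⟨p, hp, hpY, hpd⟩ := rough_sq r1 s1
      exact ⟨ht.1, p, hp, hpY, (hlarge p hp hpY).1, hpd⟩
  have hcard := (card_le_card hsub).trans ((card_union_le _ _).trans (Nat.add_le_add_left
    ((card_union_le _ _).trans (Nat.add_le_add (card_union_le _ _) (card_union_le _ _))) _))
  have hcardR := (Nat.cast_le (α := ℝ)).2 hcard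
  push_cast at hcardR
  -- numbers
  have hYr : (4 : ℝ) ≤ Y := by exact_mod_cast hY4
  have hY0r : (0 : ℝ) < Y := by linarith
  have hlog : 0 < Real.log Y := Real.log_pos (by linarith)
  have hlog1 : 1 ≤ Real.log Y := by
    rw [Real.le_log_iff_exp_le hY0r]
    have := Real.exp_one_lt_d9
    linarith
  have hHr : (H : ℝ) ≤ T / Y := by rw [hH]; exact Nat.cast_div_le
  have hTY : (1 : ℝ) ≤ T / Y := by
    rw [le_div_iff₀ hY0r, one_mul]
    have : Y ≤ T := (Nat.le_self_pow (by norm_num) Y).trans hY40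
    exact_mod_cast this
  have hT0 : (0 : ℝ) ≤ T := Nat.cast_nonneg T
  have hlogβ : (Nat.log 2 β : ℝ) ≤ 2 * J * Real.log Y := by
    have h5 : (Nat.log 2 β : ℝ) * Real.log 2 ≤ Real.log β := by
      have h6 : 2 ^ Nat.log 2 β ≤ β := Nat.pow_log_le_self 2 (by omega)
      have h7 : ((2 : ℝ) ^ Nat.log 2 β) ≤ β := by exact_mod_cast h6
      have h8 := Real.log_le_log (by positivity) h7
      rwa [Real.log_pow] at h8
    have h6 : Real.log β ≤ J * Real.log Y := by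
      have h7 : (β : ℝ) ≤ (Y : ℝ) ^ J := by exact_mod_cast hβ
      have h8 := Real.log_le_log (by exact_mod_cast hβ0) h7
      rwa [Real.log_pow] at h8
    have h7 := Real.log_two_gt_d9
    have h8 : (0 : ℝ) ≤ Nat.log 2 β := Nat.cast_nonneg _
    nlinarith
  have g1 := h1 Y hY1
  have g2 := h2 Y hY2
  have hL3 : 0 < Real.log Y ^ 3 := by positivity
  -- each of the two bounds
  have n1 : 6 * (T / Y : ℝ) ≤ c / 4 * T / Real.log Y ^ 3 := by
    rw [le_div_iff₀ hL3]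
    have h6 : 24 * Real.log Y ^ 3 ≤ c * Y := by
      rw [div_mul_eq_mul_div, div_le_iff₀ hc] at g1
      linarith
    calc 6 * (T / Y : ℝ) * Real.log Y ^ 3 = (1 / 4) * (T / Y) * (24 * Real.log Y ^ 3) := by ring
      _ ≤ (1 / 4) * (T / Y) * (c * Y) := by gcongr
      _ = c / 4 * T := by field_simp
  have n2 : 4 * J * Real.log Y * (T / Y : ℝ) ≤ c / 4 * T / Real.log Y ^ 3 := by
    rw [le_div_iff₀ hL3]
    have h6 : 16 * J * Real.log Y ^ 4 ≤ c * Y := by
      rw [div_mul_eq_mul_div, div_le_iff₀ hc] at g2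
      linarith
    calc 4 * J * Real.log Y * (T / Y : ℝ) * Real.log Y ^ 3 =
        (1 / 4) * (T / Y) * (16 * J * Real.log Y ^ 4) := by ring
      _ ≤ (1 / 4) * (T / Y) * (c * Y) := by gcongr
      _ = c / 4 * T := by field_simp
  have n3 : (Nat.log 2 β : ℝ) * (T / Y + 1) ≤ 4 * J * Real.log Y * (T / Y : ℝ) := by
    calc (Nat.log 2 β : ℝ) * (T / Y + 1) ≤ (2 * J * Real.log Y) * (T / Y + T / Y) := by gcongr
      _ = _ := by ring
  have n4 : c / 2 * T / Real.log Y ^ 3 = c * T / Real.log Y ^ 3 -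
      (c / 4 * T / Real.log Y ^ 3 + c / 4 * T / Real.log Y ^ 3) := by ring
  linarith

end ONE

end Pool.Agent.T2h88.LG
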