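import Pool.Agent.T2h88.LG.Stm

set_option autoImplicit false

/-! # BASE: Chinese remainder theorem -/

open Finset

namespace Pool.Agent.T2h88.LG

namespace BASE

theorem solve (G C v : ℕ) (hC : 0 < C) (h : Nat.Coprime G C) : ∃ x : ℕ, G * x ≡ v [MOD C] := by
  have : NeZero C := ⟨hC.ne'⟩
  obtain ⟨u, hu⟩ := (ZMod.isUnit_iff_coprime G C).2 h
  refine ⟨((u⁻¹ : (ZMod C)ˣ) * (v : ZMod C) : ZMod C).val, ?_⟩
  rw [← ZMod.natCast_eq_natCast_iff]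
  push_cast
  rw [ZMod.natCast_zmod_val, ← hu, ← mul_assoc, Units.mul_inv, one_mul]

theorem solve' (G E v : ℕ) (hE : 0 < E) (h : Nat.Coprime G E) : ∃ x : ℕ, E ∣ G * x + v := by
  have : NeZero E := ⟨hE.ne'⟩
  obtain ⟨u, hu⟩ := (ZMod.isUnit_iff_coprime G E).2 h
  refine ⟨((u⁻¹ : (ZMod E)ˣ) * (-(v : ZMod E)) : ZMod E).val, ?_⟩
  rw [← ZMod.natCast_eq_zero_iff]
  push_cast
  rw [ZMod.natCast_zmod_val, ← hu, ← mul_assoc, Units.mul_inv, one_mul]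
  ring

theorem shift (N m a : ℕ) (hN : 0 < N) : ∃ x : ℕ, x ≡ a [MOD N] ∧ m < x ∧ x ≤ m + N := by
  refine ⟨m + 1 + (a + N * (m + 1) - (m + 1)) % N, ?_, by omega, ?_⟩
  · have h1 : m + 1 ≤ a + N * (m + 1) := by nlinarith
    have h2 : m + 1 + (a + N * (m + 1) - (m + 1)) % N ≡ m + 1 + (a + N * (m + 1) - (m + 1)) [MOD N] :=
      Nat.ModEq.add_left _ (Nat.mod_modEq _ _)
    have h3 : m + 1 + (a + N * (m + 1) - (m + 1)) = a + N * (m + 1) := by omega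
    rw [h3] at h2
    refine h2.trans ?_
    unfold Nat.ModEq
    rw [Nat.add_mul_mod_self_left]
  · have := Nat.mod_lt (a + N * (m + 1) - (m + 1)) hN
    omega

end BASE

theorem t_BASE : S_BASE := by
  intro Q g ρ A C E v W hQ hg hA hC hE hgQ hAQ hCQ hEQ hAC hAE hCE hvW
  have hgC : Nat.Coprime g C := Nat.Coprime.coprime_dvd_left hgQ hCQ.symm
  have hgE : Nat.Coprime g E := Nat.Coprime.coprime_dvd_left hgQ hEQ.symm
  have hGC : Nat.Coprime (g * Q ^ 2 * A) C :=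
    Nat.Coprime.mul_left (Nat.Coprime.mul_left hgC (Nat.Coprime.pow_left 2 hCQ.symm)) hAC
  have hGE : Nat.Coprime (g * Q ^ 2 * A) E :=
    Nat.Coprime.mul_left (Nat.Coprime.mul_left hgE (Nat.Coprime.pow_left 2 hEQ.symm)) hAE
  obtain ⟨G, hG⟩ : ∃ G, G = g * Q ^ 2 * A := ⟨_, rfl⟩
  rw [← hG] at hGC hGE
  have hG0 : 0 < G := by rw [hG]; positivity
  obtain ⟨a2, ha2⟩ := BASE.solve G C v hC hGC
  obtain ⟨a3, ha3⟩ := BASE.solve' G E v hE hGE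
  obtain ⟨k1, hk1, hk2⟩ := Nat.chineseRemainder hCQ.symm (ρ * (Q - 1)) a2
  have hQCE : Nat.Coprime (Q * C) E := Nat.Coprime.mul_left hEQ.symm hCE
  obtain ⟨k2, hk3, hk4⟩ := Nat.chineseRemainder hQCE k1 a3
  obtain ⟨α, hα1, hα2, hα3⟩ := BASE.shift (Q * C * E) (W / G) k2 (by positivity)
  have m1 : α ≡ ρ * (Q - 1) [MOD Q] :=
    ((hα1.of_dvd (dvd_mul_of_dvd_left (dvd_mul_right Q C) E)).trans
      (hk3.of_dvd (dvd_mul_right Q C))).trans hk1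
  have m2 : α ≡ a2 [MOD C] :=
    ((hα1.of_dvd (dvd_mul_of_dvd_left (dvd_mul_left C Q) E)).trans
      (hk3.of_dvd (dvd_mul_left C Q))).trans hk2
  have m3 : α ≡ a3 [MOD E] := (hα1.of_dvd (dvd_mul_left E (Q * C))).trans hk4
  have hW : W < G * α := by
    rw [mul_comm]
    exact (Nat.div_lt_iff_lt_mul hG0).1 hα2
  have c1 : C ∣ G * α - v := by
    have h1 : G * α ≡ v [MOD C] := (m2.mul_left G).trans ha2
    exact (Nat.modEq_iff_dvd' (by omega)).1 h1.symm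
  have c2 : E ∣ G * α + v := by
    have h1 : G * α + v ≡ G * a3 + v [MOD E] := (m3.mul_left G).add_right v
    exact Nat.modEq_zero_iff_dvd.1 (h1.trans (Nat.modEq_zero_iff_dvd.2 ha3))
  obtain ⟨γ, hγ⟩ := c1
  obtain ⟨ε, hε⟩ := c2
  refine ⟨α, γ, ε, ?_, ?_, ?_, ?_, ?_⟩
  · rw [← hG]; omega
  · rw [← hG]; exact hε.symm
  · have h1 : α + ρ ≡ ρ * (Q - 1) + ρ [MOD Q] := m1.add_right ρ
    have h2 : ρ * (Q - 1) + ρ = ρ * Q := by
      obtain ⟨q, rfl⟩ : ∃ q, Q = q + 1 := ⟨Q - 1, by omega⟩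
      rw [Nat.add_sub_cancel]; ring
    rw [h2] at h1
    exact Nat.modEq_zero_iff_dvd.1 (h1.trans (Nat.modEq_zero_iff_dvd.2 (dvd_mul_left Q ρ)))
  · rw [← hG]; exact hW
  · rw [← hG]
    calc G * α ≤ G * (W / G + Q * C * E) := Nat.mul_le_mul_left G hα3
      _ = G * (W / G) + G * (Q * C * E) := by ring
      _ ≤ W + G * (Q * C * E) := Nat.add_le_add_right (Nat.mul_div_le W G) _
      _ = W + g * Q ^ 3 * A * C * E := by rw [hG]; ring

end Pool.Agent.T2h88.LG
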