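import Mathlib
import Pool.Agent.T2h88.LG.Stm

set_option autoImplicit false

/-!
# DB: common prime factors with a fixed number
-/

open Finset

namespace Pool.Agent.T2h88.LG

lemma DB_one (A B T p : ℕ) (hp : p.Prime) (hB : ¬ p ∣ B) :
    ((Icc 1 T).filter (fun t => p ∣ A + B * t)).card ≤ T / p + 1 := by
  classical
  refine (Finset.card_le_card_of_injOn (t := Finset.range (T / p + 1)) (fun t => t / p)
    ?_ ?_).trans (by rw [Finset.card_range])
  · intro t ht
    have h1 := (Finset.mem_Icc.1 (Finset.mem_filter.1 ht).1).2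
    exact Finset.mem_coe.2 (Finset.mem_range.2 (Nat.lt_succ_of_le (Nat.div_le_div_right h1)))
  · intro t ht t' ht' h
    have h1 : (p : ℤ) ∣ A + B * t := by exact_mod_cast (Finset.mem_filter.1 ht).2
    have h2 : (p : ℤ) ∣ A + B * t' := by exact_mod_cast (Finset.mem_filter.1 ht').2
    have h3 : (p : ℤ) ∣ B * ((t : ℤ) - t') := by
      have h4 := dvd_sub h1 h2
      have h5 : ((A : ℤ) + B * t) - (A + B * t') = B * ((t : ℤ) - t') := by ring
      rwa [h5] at h4
    have h4 : (p : ℤ) ∣ (t : ℤ) - t' := by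
      rcases (Nat.prime_iff_prime_int.1 hp).dvd_or_dvd h3 with h5 | h5
      · exact absurd (by exact_mod_cast h5) hB
      · exact h5
    have h5 : t ≡ t' [MOD p] := by
      have := (Int.modEq_iff_dvd.2 h4).symm
      exact (Int.natCast_modEq_iff.1 this)
    have h6 : t % p = t' % p := h5
    rw [← Nat.div_add_mod t p, ← Nat.div_add_mod t' p, h6]
    simp only at h
    rw [h]

theorem t_DB : S_DB := by
  classical
  intro A B T y b hy hb
  have hF : b.primeFactors.card ≤ Nat.log 2 b := by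
    refine Nat.le_log_of_pow_le (by norm_num) ?_
    calc 2 ^ b.primeFactors.card ≤ ∏ p ∈ b.primeFactors, p :=
          Finset.pow_card_le_prod _ _ _ fun p hp => (Nat.prime_of_mem_primeFactors hp).two_le
      _ ≤ b := Nat.le_of_dvd hb (Nat.prod_primeFactors_dvd b)
  have h1 : ((Icc 1 T).filter
      (fun t => ∃ p : ℕ, p.Prime ∧ y < p ∧ ¬ p ∣ B ∧ p ∣ b ∧ p ∣ A + B * t)) ⊆
      (b.primeFactors.filter (fun p => y < p ∧ ¬ p ∣ B)).biUnion
        (fun p => (Icc 1 T).filter (fun t => p ∣ A + B * t)) := by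
    intro t ht
    obtain ⟨h2, p, hp, h3, h4, h5, h6⟩ := Finset.mem_filter.1 ht
    rw [Finset.mem_biUnion]
    exact ⟨p, Finset.mem_filter.2 ⟨Nat.mem_primeFactors.2 ⟨hp, h5, hb.ne'⟩, h3, h4⟩,
      Finset.mem_filter.2 ⟨h2, h6⟩⟩
  have h2 : (((Icc 1 T).filter
      (fun t => ∃ p : ℕ, p.Prime ∧ y < p ∧ ¬ p ∣ B ∧ p ∣ b ∧ p ∣ A + B * t)).card : ℝ) ≤
      ∑ p ∈ b.primeFactors.filter (fun p => y < p ∧ ¬ p ∣ B), ((T : ℝ) / y + 1) := by
    refine le_trans (Nat.cast_le.2 ((Finset.card_le_card h1).trans Finset.card_biUnion_le)) ?_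
    rw [Nat.cast_sum]
    refine Finset.sum_le_sum fun p hp => ?_
    obtain ⟨hp1, hp2, hp3⟩ := Finset.mem_filter.1 hp
    have h3 := DB_one A B T p (Nat.prime_of_mem_primeFactors hp1) hp3
    have h4 : ((T / p : ℕ) : ℝ) ≤ (T : ℝ) / y := by
      refine Nat.cast_div_le.trans ?_
      have hy' : (0 : ℝ) < y := by exact_mod_cast hy
      exact div_le_div_of_nonneg_left (Nat.cast_nonneg _) hy' (by exact_mod_cast hp2.le)
    calc (((Icc 1 T).filter (fun t => p ∣ A + B * t)).card : ℝ) ≤ ((T / p + 1 : ℕ) : ℝ) := by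
          exact_mod_cast h3
      _ ≤ (T : ℝ) / y + 1 := by push_cast; linarith
  refine h2.trans ?_
  rw [Finset.sum_const, nsmul_eq_mul]
  refine mul_le_mul_of_nonneg_right ?_ (by positivity)
  exact_mod_cast (Finset.card_filter_le _ _).trans hF

end Pool.Agent.T2h88.LG
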