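import Pool.Agent.T2h88.LG.Stm

set_option autoImplicit false

/-! # DIV: rough divisors -/

open Finset

namespace Pool.Agent.T2h88.LG

theorem t_DIV : S_DIV := by
  intro N Y J hY hN hlt
  classical
  have hN0 : N ≠ 0 := hN.ne_zero
  set F := N.primeFactors.filter (fun p => Y < p) with hF
  have h1 : Y ^ F.card ≤ N := by
    calc Y ^ F.card = ∏ _p ∈ F, Y := by simp
      _ ≤ ∏ p ∈ F, p := Finset.prod_le_prod' fun p hp => (Finset.mem_filter.1 hp).2.le
      _ ≤ ∏ p ∈ N.primeFactors, p :=
          Finset.prod_le_prod_of_subset_of_one_le' (Finset.filter_subset _ _)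
            fun p hp _ => (Nat.prime_of_mem_primeFactors hp).one_lt.le
      _ = N := Nat.prod_primeFactors_of_squarefree hN
  have h2 : F.card < J := (Nat.pow_lt_pow_iff_right hY).1 (h1.trans_lt hlt)
  have h3 : (N.divisors.filter (fun d => Rough Y d)).card ≤ F.powerset.card := by
    refine Finset.card_le_card_of_injOn (fun d => d.primeFactors) ?_ ?_
    · intro d hd
      rw [Finset.mem_coe, Finset.mem_filter, Nat.mem_divisors] at hd
      rw [Finset.mem_coe, Finset.mem_powerset]
      intro p hp
      have hpp := Nat.prime_of_mem_primeFactors hp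
      have hpd := Nat.dvd_of_mem_primeFactors hp
      rw [hF, Finset.mem_filter, Nat.mem_primeFactors]
      refine ⟨⟨hpp, hpd.trans hd.1.1, hN0⟩, ?_⟩
      by_contra h
      exact hd.2 p hpp (not_lt.1 h) hpd
    · intro d hd d' hd' h
      rw [Finset.mem_coe, Finset.mem_filter, Nat.mem_divisors] at hd hd'
      have e1 := Nat.prod_primeFactors_of_squarefree (hN.squarefree_of_dvd hd.1.1)
      have e2 := Nat.prod_primeFactors_of_squarefree (hN.squarefree_of_dvd hd'.1.1)
      simp only at h
      rw [← e1, ← e2, h]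
  refine le_trans (le_of_eq (by congr)) (h3.trans ?_)
  rw [Finset.card_powerset]
  exact Nat.pow_le_pow_right (by norm_num) h2.le

end Pool.Agent.T2h88.LG
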