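import Mathlib
import Pool.Agent.T2h88.LG.Stm

set_option autoImplicit false

/-!
# FIN: all residue classes
-/

open Finset

namespace Pool.Agent.T2h88.LG

theorem t_FIN (hM : S_MAIN) : S_FIN := by
  intro M hM0
  have hQ0 : 0 < Nat.factorial 256 * M := Nat.mul_pos (Nat.factorial_pos _) hM0
  have hsm : ∀ p : ℕ, p.Prime → p ≤ 256 → p ∣ Nat.factorial 256 * M := fun p hp h =>
    Dvd.dvd.mul_right (Nat.dvd_factorial hp.pos h) M
  obtain ⟨Q, hQ⟩ : ∃ Q, Q = Nat.factorial 256 * M := ⟨_, rfl⟩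
  rw [← hQ] at hQ0 hsm
  obtain ⟨c, hc, X₀, h⟩ := hM Q hQ0 hsm
  refine ⟨c, hc, X₀, fun X hX k hk => ?_⟩
  have hk0 : k ≠ 0 := hk.ne_zero
  have hg0 : 0 < Nat.gcd k Q := Nat.gcd_pos_of_pos_left _ (Nat.pos_of_ne_zero hk0)
  have hgk : Nat.gcd k Q * (k / Nat.gcd k Q) = k := Nat.mul_div_cancel' (Nat.gcd_dvd_left k Q)
  have hP : Par Q (Nat.gcd k Q) (k / Nat.gcd k Q) := by
    refine ⟨hQ0, hsm, Nat.gcd_dvd_right k Q, hk.squarefree_of_dvd (Nat.gcd_dvd_left k Q), ?_⟩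
    have hs : Squarefree (Nat.gcd k Q * (k / Nat.gcd k Q)) := by rw [hgk]; exact hk
    have hco := Nat.coprime_of_squarefree_mul hs
    have h1 : Nat.gcd (k / Nat.gcd k Q) Q ∣ k / Nat.gcd k Q := Nat.gcd_dvd_left _ _
    have h2 : Nat.gcd (k / Nat.gcd k Q) Q ∣ Nat.gcd k Q :=
      Nat.dvd_gcd (h1.trans (Nat.div_dvd_of_dvd (Nat.gcd_dvd_left k Q))) (Nat.gcd_dvd_right _ _)
    have h3 := Nat.dvd_gcd h2 h1
    rw [Nat.coprime_iff_gcd_eq_one.1 hco] at h3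
    exact Nat.dvd_one.1 h3
  refine (h X hX _ _ hP).trans ?_
  have hfin : {m : ℕ | m ≤ X ∧ Squarefree m ∧ IsCongruent m ∧ m ≡ k [MOD M]}.Finite :=
    (Set.finite_Iic X).subset fun m hm => hm.1
  have hle := Set.ncard_le_ncard (s := {m : ℕ | m ≤ X ∧ Squarefree m ∧ IsCongruent m ∧
    m ≡ Nat.gcd k Q * (k / Nat.gcd k Q) [MOD Q]}) (fun m hm => by
      refine ⟨hm.1, hm.2.1, hm.2.2.1, ?_⟩
      have h1 := hm.2.2.2
      rw [hgk, hQ] at h1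
      exact h1.of_mul_left _) hfin
  exact_mod_cast hle

end Pool.Agent.T2h88.LG
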