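import Pool.Agent.T2h88.LG.Stm

set_option autoImplicit false

open Finset

namespace Pool.Agent.T2h88.LG.INJ

theorem mem_tup {Q Y : ℕ} {n : Fin 8 → ℕ} (h : n ∈ Tup Q Y) :
    (∀ i, 1 ≤ n i ∧ n i ≤ Y ∧ n i ≡ 1 [MOD Q] ∧ Squarefree (n i)) ∧
      ∀ i j, i ≠ j → Nat.Coprime (n i) (n j) := by
  classical
  unfold Tup at h
  rw [mem_filter, Fintype.mem_piFinset] at h
  refine ⟨fun i => ?_, h.2⟩
  have := h.1 i
  rw [mem_filter, mem_Icc] at this
  exact ⟨this.1.1, this.1.2, this.2.1, this.2.2⟩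

theorem sqf_unique {a b a' b' : ℕ} (ha : Squarefree a) (ha' : Squarefree a') (hb : b ≠ 0)
    (hb' : b' ≠ 0) (h : a * b ^ 2 = a' * b' ^ 2) : a = a' ∧ b = b' := by
  have ha0 : a ≠ 0 := ha.ne_zero
  have ha0' : a' ≠ 0 := ha'.ne_zero
  have key : ∀ p, a.factorization p = a'.factorization p ∧
      b.factorization p = b'.factorization p := by
    intro p
    have h1 := congrArg (fun m => m.factorization p) h
    simp only [Nat.factorization_mul ha0 (pow_ne_zero 2 hb),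
      Nat.factorization_mul ha0' (pow_ne_zero 2 hb'), Nat.factorization_pow, Finsupp.add_apply,
      Finsupp.smul_apply, smul_eq_mul] at h1
    have h2 := ha.natFactorization_le_one p
    have h3 := ha'.natFactorization_le_one p
    omega
  exact ⟨Nat.eq_of_factorization_eq ha0 ha0' fun p => (key p).1,
    Nat.eq_of_factorization_eq hb hb' fun p => (key p).2⟩

/-- two linear relations -/
theorem two {G A B C A' B' C' α β γ : ℤ} {Y : ℤ} (hG : 0 < G) (hα : Y ^ 6 < α)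
    (hY : 0 ≤ Y)
    (hco : IsCoprime α β) (hB : 0 ≤ B) (hBY : B ≤ Y ^ 3) (hC : 0 ≤ C) (hCY : C ≤ Y ^ 3)
    (hB' : 0 ≤ B') (hBY' : B' ≤ Y ^ 3) (hC' : 0 ≤ C') (hCY' : C' ≤ Y ^ 3)
    (h : G * A * α + B * β = C * γ) (h' : G * A' * α + B' * β = C' * γ) :
    B * C' = B' * C ∧ A * C' = A' * C := by
  have hα0 : 0 < α := lt_of_le_of_lt (by positivity) hα
  have e : (G * (A * C' - A' * C)) * α = (B' * C - B * C') * β := by
    linear_combination C' * h - C * h'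
  have hd : α ∣ B' * C - B * C' :=
    hco.dvd_of_dvd_mul_right (Dvd.intro_left _ e)
  have h1 : B' * C ≤ Y ^ 6 := by
    calc B' * C ≤ Y ^ 3 * Y ^ 3 := mul_le_mul hBY' hCY hC (by positivity)
      _ = Y ^ 6 := by ring
  have h2 : B * C' ≤ Y ^ 6 := by
    calc B * C' ≤ Y ^ 3 * Y ^ 3 := mul_le_mul hBY hCY' hC' (by positivity)
      _ = Y ^ 6 := by ring
  have h3 : 0 ≤ B' * C := mul_nonneg hB' hC
  have h4 : 0 ≤ B * C' := mul_nonneg hB hC'
  have h5 : B' * C - B * C' = 0 := by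
    apply Int.eq_zero_of_abs_lt_dvd hd
    rw [abs_lt]
    constructor <;> linarith
  rw [h5, zero_mul] at e
  have h6 : A * C' - A' * C = 0 := by
    rcases mul_eq_zero.1 e with h | h
    · rcases mul_eq_zero.1 h with h | h
      · exact absurd h hG.ne'
      · exact h
    · exact absurd h hα0.ne'
  exact ⟨by linarith, by linarith⟩

theorem eq_of_cross {A C A' C' : ℕ} (hA : 0 < A) (hC : 0 < C) (h : Nat.Coprime A C)
    (h' : Nat.Coprime A' C') (e : A * C' = A' * C) : A = A' ∧ C = C' := by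
  have h1 : A ∣ A' := h.dvd_of_dvd_mul_right ⟨C', e.symm⟩
  have h2 : A' ∣ A := h'.dvd_of_dvd_mul_right ⟨C, e⟩
  have h3 := Nat.dvd_antisymm h1 h2
  subst h3
  refine ⟨rfl, ?_⟩
  exact (Nat.eq_of_mul_eq_mul_left hA e).symm

end INJ

open INJ

theorem t_INJ : S_INJ := by
  intro Q g ρ Y X n n' α β γ ε hP h h'
  obtain ⟨hn, hcop⟩ := mem_tup h.tup
  obtain ⟨hn', hcop'⟩ := mem_tup h'.tup
  have hg : 0 < g := Nat.pos_of_dvd_of_pos hP.gQ hP.Q0
  have hG : 0 < g * Q ^ 2 := Nat.mul_pos hg (pow_pos hP.Q0 2)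
  have bd : ∀ (m : Fin 8 → ℕ) (i j : Fin 8), (∀ i, 1 ≤ m i ∧ m i ≤ Y ∧ m i ≡ 1 [MOD Q] ∧
      Squarefree (m i)) → 0 < m i * m j ^ 2 ∧ m i * m j ^ 2 ≤ Y ^ 3 := by
    intro m i j hm
    have h1 := (hm i).1
    have h2 := (hm j).1
    refine ⟨by positivity, ?_⟩
    calc m i * m j ^ 2 ≤ Y * Y ^ 2 := Nat.mul_le_mul (hm i).2.1 (Nat.pow_le_pow_left (hm j).2.1 2)
      _ = Y ^ 3 := by ring
  have cp : ∀ (m : Fin 8 → ℕ) (i j k l : Fin 8), (∀ i j, i ≠ j → Nat.Coprime (m i) (m j)) →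
      i ≠ k → i ≠ l → j ≠ k → j ≠ l → Nat.Coprime (m i * m j ^ 2) (m k * m l ^ 2) := by
    intro m i j k l hm h1 h2 h3 h4
    apply Nat.Coprime.mul_left
    · exact Nat.Coprime.mul_right (hm _ _ h1) ((hm _ _ h2).pow_right 2)
    · exact Nat.Coprime.mul_right ((hm _ _ h3).pow_left 2) (((hm _ _ h4).pow_left 2).pow_right 2)
  have e1 := h.e1
  have e1' := h'.e1
  have e2 := h.e2
  have e2' := h'.e2
  have hbig : ((Y : ℤ)) ^ 6 < α := by exact_mod_cast h.big
  have hco : IsCoprime (α : ℤ) (β : ℤ) := Nat.isCoprime_iff_coprime.2 h.co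
  have hco' : IsCoprime (α : ℤ) (-β : ℤ) := hco.neg_right
  -- names
  set A := n 0 * n 1 ^ 2 with hA
  set B := n 2 * n 3 ^ 2 with hB
  set C := n 4 * n 5 ^ 2 with hC
  set D := n 6 * n 7 ^ 2 with hD
  set A' := n' 0 * n' 1 ^ 2 with hA'
  set B' := n' 2 * n' 3 ^ 2 with hB'
  set C' := n' 4 * n' 5 ^ 2 with hC'
  set D' := n' 6 * n' 7 ^ 2 with hD'
  obtain ⟨pA, bA⟩ := bd n 0 1 hn
  obtain ⟨pB, bB⟩ := bd n 2 3 hn
  obtain ⟨pC, bC⟩ := bd n 4 5 hn
  obtain ⟨pD, bD⟩ := bd n 6 7 hn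
  obtain ⟨pA', bA'⟩ := bd n' 0 1 hn'
  obtain ⟨pB', bB'⟩ := bd n' 2 3 hn'
  obtain ⟨pC', bC'⟩ := bd n' 4 5 hn'
  obtain ⟨pD', bD'⟩ := bd n' 6 7 hn'
  have hGz : (0 : ℤ) < ((g * Q ^ 2 : ℕ) : ℤ) := by exact_mod_cast hG
  have r1 := two (G := ((g * Q ^ 2 : ℕ) : ℤ)) (A := A) (B := B) (C := C) (A' := A') (B' := B')
    (C' := C') (α := α) (β := -β) (γ := γ) (Y := Y) hGz hbig (by positivity) hco'
    (by positivity) (by exact_mod_cast bB) (by positivity) (by exact_mod_cast bC)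
    (by positivity) (by exact_mod_cast bB') (by positivity) (by exact_mod_cast bC')
    (by
      have : ((g * Q ^ 2 * A * α : ℕ) : ℤ) = ((B * β + C * γ : ℕ) : ℤ) := by rw [e1]
      push_cast at this ⊢
      linarith)
    (by
      have : ((g * Q ^ 2 * A' * α : ℕ) : ℤ) = ((B' * β + C' * γ : ℕ) : ℤ) := by rw [e1']
      push_cast at this ⊢
      linarith)
  have r2 := two (G := ((g * Q ^ 2 : ℕ) : ℤ)) (A := A) (B := B) (C := D) (A' := A') (B' := B')
    (C' := D') (α := α) (β := β) (γ := ε) (Y := Y) hGz hbig (by positivity) hco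
    (by positivity) (by exact_mod_cast bB) (by positivity) (by exact_mod_cast bD)
    (by positivity) (by exact_mod_cast bB') (by positivity) (by exact_mod_cast bD')
    (by
      have : ((D * ε : ℕ) : ℤ) = ((g * Q ^ 2 * A * α + B * β : ℕ) : ℤ) := by rw [e2]
      push_cast at this ⊢
      linarith)
    (by
      have : ((D' * ε : ℕ) : ℤ) = ((g * Q ^ 2 * A' * α + B' * β : ℕ) : ℤ) := by rw [e2']
      push_cast at this ⊢
      linarith)
  have c1 : B * C' = B' * C := by exact_mod_cast r1.1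
  have c2 : A * C' = A' * C := by exact_mod_cast r1.2
  have c3 : B * D' = B' * D := by exact_mod_cast r2.1
  obtain ⟨a1, a2⟩ := eq_of_cross pA pC (cp n 0 1 4 5 hcop (by decide) (by decide) (by decide)
    (by decide)) (cp n' 0 1 4 5 hcop' (by decide) (by decide) (by decide) (by decide)) c2
  obtain ⟨a3, a4⟩ := eq_of_cross pB pD (cp n 2 3 6 7 hcop (by decide) (by decide) (by decide)
    (by decide)) (cp n' 2 3 6 7 hcop' (by decide) (by decide) (by decide) (by decide)) c3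
  have un : ∀ i j : Fin 8, n i * n j ^ 2 = n' i * n' j ^ 2 → n i = n' i ∧ n j = n' j := by
    intro i j hij
    exact sqf_unique (hn i).2.2.2 (hn' i).2.2.2 (by have := (hn j).1; omega)
      (by have := (hn' j).1; omega) hij
  obtain ⟨b0, b1⟩ := un 0 1 a1
  obtain ⟨b4, b5⟩ := un 4 5 a2
  obtain ⟨b2, b3⟩ := un 2 3 a3
  obtain ⟨b6, b7⟩ := un 6 7 a4
  funext i
  fin_cases i
  · exact b0
  · exact b1
  · exact b2
  · exact b3
  · exact b4
  · exact b5
  · exact b6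
  · exact b7

end Pool.Agent.T2h88.LG
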