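import Pool.Agent.T2h88.LG.Stm

set_option autoImplicit false

open Finset

namespace Pool.Agent.T2h88.LG

namespace MAIN

/-- the parameter `Y` -/
theorem exists_Y (L Y₀ X : ℕ) (hL : 1 ≤ L) (hX : Y₀ ^ L ≤ X) (hY : 2 ≤ Y₀) :
    ∃ Y : ℕ, Y₀ ≤ Y ∧ Y ^ L ≤ X ∧ X < Y ^ (2 * L) := by
  have hL0 : L ≠ 0 := by omega
  set Y := Nat.findGreatest (fun Y => Y ^ L ≤ X) X with hYd
  have h1 : Y₀ ≤ X := le_trans (Nat.le_self_pow hL0 Y₀) hX
  have h2 : Y₀ ≤ Y := Nat.le_findGreatest h1 hX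
  have h3 : Y ^ L ≤ X := Nat.findGreatest_spec (P := fun Y => Y ^ L ≤ X) h1 hX
  have h4 : X < (Y + 1) ^ L := by
    by_contra hc
    push Not at hc
    have h5 : Y + 1 ≤ X := le_trans (Nat.le_self_pow hL0 _) hc
    have := Nat.le_findGreatest (P := fun Y => Y ^ L ≤ X) h5 hc
    omega
  refine ⟨Y, h2, h3, lt_of_lt_of_le h4 ?_⟩
  rw [pow_mul]
  exact Nat.pow_le_pow_left (by nlinarith) L

end MAIN

open MAIN in
theorem t_MAIN (hVC : S_VC) (hVX : S_VX) (hVM : S_VM) (hVS : S_VS) (hINJ : S_INJ) (hDIV : S_DIV) (hTUP : S_TUP)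
    (hONE : S_ONE) : S_MAIN := by
  classical
  intro Q hQ hQs
  obtain ⟨L, c, hc, hL, Y₁, h1⟩ := hONE Q hQ hQs
  obtain ⟨c', hc', Y₂, h2⟩ := hTUP Q hQ hQs
  set Y₀ := max (max Y₁ Y₂) (max Q 2) with hY₀
  have hK0 : (0 : ℝ) < ((2 : ℝ) ^ (2 * L)) ^ 4 * (2 * L : ℝ) ^ 4 := by
    have : (0 : ℝ) < L := by exact_mod_cast hL
    positivity
  refine ⟨c * c' / (((2 : ℝ) ^ (2 * L)) ^ 4 * (2 * L : ℝ) ^ 4), by positivity, Y₀ ^ L, ?_⟩
  intro X hX g ρ hP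
  obtain ⟨Y, hY, hYX, hXY⟩ := exists_Y L Y₀ X hL hX (le_trans (le_max_right _ _) (le_max_right _ _))
  have hY1 : Y₁ ≤ Y := le_trans (le_trans (le_max_left _ _) (le_max_left _ _)) hY
  have hY2 : Y₂ ≤ Y := le_trans (le_trans (le_max_right _ _) (le_max_left _ _)) hY
  have hYQ : Q ≤ Y := le_trans (le_trans (le_max_left _ _) (le_max_right _ _)) hY
  have hYt : 2 ≤ Y := le_trans (le_trans (le_max_right _ _) (le_max_right _ _)) hY
  have hlogY : 0 < Real.log Y := Real.log_pos (by exact_mod_cast (by omega : 1 < Y))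
  -- the target
  set T : Set ℕ := {m : ℕ | m ≤ X ∧ Squarefree m ∧ IsCongruent m ∧ m ≡ g * ρ [MOD Q]} with hT
  have hTfin : T.Finite := (Set.finite_Iic X).subset (fun m hm => hm.1)
  -- the representations
  set P4 : Finset (ℕ × ℕ × ℕ × ℕ) :=
    (range (X + 1)) ×ˢ (range (X + 1)) ×ˢ (range (X + 1)) ×ˢ (range (X + 1)) with hP4
  set f : (Fin 8 → ℕ) × (ℕ × ℕ × ℕ × ℕ) → ℕ := fun q => val g q.1 q.2.1 q.2.2.1 q.2.2.2.1 q.2.2.2.2 with hf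
  have hval : ∀ n α β γ ε, IsRep Q g ρ Y X n α β γ ε → val g n α β γ ε ∈ T := by
    intro n α β γ ε h
    exact ⟨hVX Q g ρ Y X n α β γ ε hP h, hVS Q g ρ Y X n α β γ ε hP hYQ h, hVC Q g ρ Y X n α β γ ε hP h,
      hVM Q g ρ Y X n α β γ ε hP h⟩
  have hdvd : ∀ n α β γ ε, α ∣ val g n α β γ ε ∧ β ∣ val g n α β γ ε ∧ γ ∣ val g n α β γ ε ∧
      ε ∣ val g n α β γ ε := by
    intro n α β γ ε
    refine ⟨⟨g * n 0 * (n 2 * β) * (n 4 * γ) * (n 6 * ε), ?_⟩, ⟨g * (n 0 * α) * n 2 * (n 4 * γ) * (n 6 * ε), ?_⟩,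
      ⟨g * (n 0 * α) * (n 2 * β) * n 4 * (n 6 * ε), ?_⟩, ⟨g * (n 0 * α) * (n 2 * β) * (n 4 * γ) * n 6, ?_⟩⟩ <;>
    · unfold val; ring
  have hle : ∀ n α β γ ε, IsRep Q g ρ Y X n α β γ ε → α ≤ X ∧ β ≤ X ∧ γ ≤ X ∧ ε ≤ X := by
    intro n α β γ ε h
    have hv := hval n α β γ ε h
    have hv0 : 0 < val g n α β γ ε := Nat.pos_of_ne_zero hv.2.1.ne_zero
    obtain ⟨d1, d2, d3, d4⟩ := hdvd n α β γ ε
    exact ⟨(Nat.le_of_dvd hv0 d1).trans hv.1, (Nat.le_of_dvd hv0 d2).trans hv.1, (Nat.le_of_dvd hv0 d3).trans hv.1,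
      (Nat.le_of_dvd hv0 d4).trans hv.1⟩
  set S : Finset ((Fin 8 → ℕ) × (ℕ × ℕ × ℕ × ℕ)) :=
    (Tup Q Y ×ˢ P4).filter (fun q => IsRep Q g ρ Y X q.1 q.2.1 q.2.2.1 q.2.2.2.1 q.2.2.2.2) with hS
  -- number of representations
  have hcard : ∀ n ∈ Tup Q Y, ({p : ℕ × ℕ × ℕ × ℕ | IsRep Q g ρ Y X n p.1 p.2.1 p.2.2.1 p.2.2.2}.ncard) =
      (P4.filter (fun p => IsRep Q g ρ Y X n p.1 p.2.1 p.2.2.1 p.2.2.2)).card := by
    intro n _
    rw [← Set.ncard_coe_finset]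
    congr 1
    ext p
    simp only [Set.mem_ofPred_eq, coe_filter, hP4, mem_product, mem_range]
    constructor
    · intro h
      obtain ⟨a1, a2, a3, a4⟩ := hle n _ _ _ _ h
      exact ⟨⟨by omega, by omega, by omega, by omega⟩, h⟩
    · exact fun h => h.2
  have hSsum : ((S.card : ℕ) : ℝ) = ∑ n ∈ Tup Q Y,
      (({p : ℕ × ℕ × ℕ × ℕ | IsRep Q g ρ Y X n p.1 p.2.1 p.2.2.1 p.2.2.2}.ncard : ℕ) : ℝ) := by
    rw [hS, Finset.card_filter, Finset.sum_product]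
    push_cast
    refine Finset.sum_congr rfl (fun n hn => ?_)
    rw [hcard n hn, Finset.card_filter]
    push_cast
    rfl
  have hlow : c * c' * Real.sqrt X * Real.log Y ^ 4 ≤ (S.card : ℝ) := by
    rw [hSsum]
    have hA : ∑ n ∈ Tup Q Y, c * Real.sqrt X / ((∏ i, (n i : ℝ)) * Real.log Y ^ 4) ≤ ∑ n ∈ Tup Q Y,
      (({p : ℕ × ℕ × ℕ × ℕ | IsRep Q g ρ Y X n p.1 p.2.1 p.2.2.1 p.2.2.2}.ncard : ℕ) : ℝ) :=
      Finset.sum_le_sum (fun n hn => h1 Y hY1 g ρ hP X hYX hXY n hn)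
    refine le_trans ?_ hA
    have hB : ∑ n ∈ Tup Q Y, c * Real.sqrt X / ((∏ i, (n i : ℝ)) * Real.log Y ^ 4) =
        c * Real.sqrt X / Real.log Y ^ 4 * ∑ n ∈ Tup Q Y, (∏ i, (n i : ℝ))⁻¹ := by
      rw [Finset.mul_sum]
      refine Finset.sum_congr rfl (fun n _ => ?_)
      rw [div_eq_mul_inv, mul_inv, div_eq_mul_inv]
      ring
    rw [hB]
    have hC := h2 Y hY2
    have hD : 0 ≤ c * Real.sqrt X / Real.log Y ^ 4 := by positivity
    have hE := mul_le_mul_of_nonneg_left hC hD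
    refine le_trans (le_of_eq ?_) hE
    field_simp
  -- the fibres
  have hup : S.card ≤ (2 ^ (2 * L)) ^ 4 * (S.image f).card := by
    refine Finset.card_le_mul_card_image S _ ?_
    intro a ha
    obtain ⟨q, hq, rfl⟩ := Finset.mem_image.mp ha
    have hq' := (Finset.mem_filter.mp hq).2
    have hv := hval _ _ _ _ _ hq'
    set a := f q with hfa
    have hav : a ∈ T := hv
    set D := a.divisors.filter (fun d => Rough Y d) with hD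
    have hDc : D.card ≤ 2 ^ (2 * L) := hDIV a Y (2 * L) hYt hav.2.1 (lt_of_le_of_lt hav.1 hXY)
    have hmaps : ∀ x ∈ S.filter (fun x => f x = a), x.2 ∈ D ×ˢ D ×ˢ D ×ˢ D := by
      intro x hx
      obtain ⟨hxS, hxa⟩ := Finset.mem_filter.mp hx
      have hr := (Finset.mem_filter.mp hxS).2
      obtain ⟨d1, d2, d3, d4⟩ := hdvd x.1 x.2.1 x.2.2.1 x.2.2.2.1 x.2.2.2.2
      have ha0 : a ≠ 0 := hav.2.1.ne_zero
      have hxa' : val g x.1 x.2.1 x.2.2.1 x.2.2.2.1 x.2.2.2.2 = a := hxa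
      rw [hxa'] at d1 d2 d3 d4
      simp only [hD, mem_product, mem_filter, Nat.mem_divisors]
      exact ⟨⟨⟨d1, ha0⟩, hr.ra⟩, ⟨⟨d2, ha0⟩, hr.rb⟩, ⟨⟨d3, ha0⟩, hr.rc⟩, ⟨⟨d4, ha0⟩, hr.re⟩⟩
    have hinj : Set.InjOn (fun x : (Fin 8 → ℕ) × (ℕ × ℕ × ℕ × ℕ) => x.2) (S.filter (fun x => f x = a) : Finset _) := by
      intro x hx y hy hxy
      have hx' := (Finset.mem_filter.mp (Finset.mem_filter.mp (Finset.mem_coe.mp hx)).1).2
      have hy' := (Finset.mem_filter.mp (Finset.mem_filter.mp (Finset.mem_coe.mp hy)).1).2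
      have hxy' : x.2 = y.2 := hxy
      rw [← hxy'] at hy'
      have := hINJ Q g ρ Y X x.1 y.1 _ _ _ _ hP hx' hy'
      exact Prod.ext this hxy'
    have hcc := Finset.card_le_card_of_injOn (fun x : (Fin 8 → ℕ) × (ℕ × ℕ × ℕ × ℕ) => x.2) hmaps hinj
    refine le_trans hcc ?_
    simp only [card_product]
    calc D.card * (D.card * (D.card * D.card)) = D.card ^ 4 := by ring
      _ ≤ (2 ^ (2 * L)) ^ 4 := Nat.pow_le_pow_left hDc 4
  have himg : (S.image f).card ≤ T.ncard := by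
    rw [← Set.ncard_coe_finset]
    refine Set.ncard_le_ncard ?_ hTfin
    intro m hm
    obtain ⟨q, hq, rfl⟩ := Finset.mem_image.mp (Finset.mem_coe.mp hm)
    exact hval _ _ _ _ _ (Finset.mem_filter.mp hq).2
  have hfin : (S.card : ℝ) ≤ ((2 : ℝ) ^ (2 * L)) ^ 4 * (T.ncard : ℝ) := by
    have : S.card ≤ (2 ^ (2 * L)) ^ 4 * T.ncard := hup.trans (Nat.mul_le_mul_left _ himg)
    exact_mod_cast this
  -- the logarithms
  have hXpos : (0 : ℝ) < X := by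
    have : 0 < Y ^ L := pow_pos (by omega) L
    exact_mod_cast lt_of_lt_of_le this hYX
  have hlogX0 : 0 ≤ Real.log X := Real.log_natCast_nonneg X
  have hlogX : Real.log X ≤ 2 * L * Real.log Y := by
    have h3 : (X : ℝ) ≤ (Y : ℝ) ^ (2 * L) := by exact_mod_cast hXY.le
    have h4 := Real.log_le_log hXpos h3
    rw [Real.log_pow] at h4
    push_cast at h4
    exact h4
  have hlog4 : Real.log X ^ 4 ≤ (2 * L : ℝ) ^ 4 * Real.log Y ^ 4 := by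
    rw [← mul_pow]
    exact pow_le_pow_left₀ hlogX0 hlogX 4
  have hA : c * c' * Real.sqrt X * Real.log X ^ 4 ≤ (2 * L : ℝ) ^ 4 * (((2 : ℝ) ^ (2 * L)) ^ 4 * (T.ncard : ℝ)) := by
    calc c * c' * Real.sqrt X * Real.log X ^ 4 ≤ c * c' * Real.sqrt X * ((2 * L : ℝ) ^ 4 * Real.log Y ^ 4) :=
          mul_le_mul_of_nonneg_left hlog4 (by positivity)
      _ = (2 * L : ℝ) ^ 4 * (c * c' * Real.sqrt X * Real.log Y ^ 4) := by ring
      _ ≤ (2 * L : ℝ) ^ 4 * (((2 : ℝ) ^ (2 * L)) ^ 4 * (T.ncard : ℝ)) :=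
          mul_le_mul_of_nonneg_left (hlow.trans hfin) (by positivity)
  calc c * c' / (((2 : ℝ) ^ (2 * L)) ^ 4 * (2 * L : ℝ) ^ 4) * Real.sqrt X * Real.log X ^ 4
      = (c * c' * Real.sqrt X * Real.log X ^ 4) / (((2 : ℝ) ^ (2 * L)) ^ 4 * (2 * L : ℝ) ^ 4) := by ring
    _ ≤ (T.ncard : ℝ) := by
        rw [div_le_iff₀ hK0]
        refine hA.trans (le_of_eq ?_)
        ring

end Pool.Agent.T2h88.LG
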