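import Mathlib
import Pool.Agent.T2h88.LG.OneA

set_option autoImplicit false

open Finset

namespace Pool.Agent.T2h88.LG

namespace ONE

/-- what is needed of a tuple -/
lemma tup_facts {Q Y : ℕ} {n : Fin 8 → ℕ} (hn : n ∈ Tup Q Y) :
    (∀ i, 1 ≤ n i ∧ n i ≤ Y ∧ n i ≡ 1 [MOD Q] ∧ Squarefree (n i)) ∧
      ∀ i j, i ≠ j → Nat.Coprime (n i) (n j) := by
  classical
  unfold Tup at hn
  rw [mem_filter, Fintype.mem_piFinset] at hn
  refine ⟨fun i => ?_, hn.2⟩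
  have := hn.1 i
  rw [mem_filter, mem_Icc] at this
  exact ⟨this.1.1, this.1.2, this.2.1, this.2.2⟩

lemma sq_mod {Q a b : ℕ} (ha : a ≡ 1 [MOD Q]) (hb : b ≡ 1 [MOD Q]) : a * b ^ 2 ≡ 1 [MOD Q] := by
  have := ha.mul (hb.pow 2)
  simpa using this

lemma cop_of_mod {Q a : ℕ} (ha : a ≡ 1 [MOD Q]) : Nat.Coprime a Q := by
  have h := ha.gcd_eq
  rw [Nat.gcd_one_left] at h
  exact h

lemma cop_abs {a b c d : ℕ} (h1 : Nat.Coprime a c) (h2 : Nat.Coprime a d) (h3 : Nat.Coprime b c)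
    (h4 : Nat.Coprime b d) : Nat.Coprime (a * b ^ 2) (c * d ^ 2) := by
  apply Nat.Coprime.mul_left
  · exact Nat.Coprime.mul_right h1 (h2.pow_right 2)
  · exact Nat.Coprime.mul_right (h3.pow_left 2) (Nat.Coprime.pow 2 2 h4)

lemma le_cube {Y a b : ℕ} (ha : a ≤ Y) (hb : b ≤ Y) : a * b ^ 2 ≤ Y ^ 3 := by
  calc a * b ^ 2 ≤ Y * Y ^ 2 := by gcongr
    _ = Y ^ 3 := by ring

end ONE

open ONE in
open Classical in
theorem t_ONE (hSV : S_SV) (hSQ : S_SQ) (hDB : S_DB) (hBASE : S_BASE) : S_ONE := by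
  intro Q hQ0 hQ
  obtain ⟨K1, Y1, c1, hc1, hB⟩ := oneB hSV hSQ Q hQ0 hQ
  obtain ⟨K3, c3, hc3, hA⟩ := oneA hSV hSQ hDB
  obtain ⟨L', hL'⟩ : ∃ L', L' = K1 + K3 + 60 := ⟨_, rfl⟩
  obtain ⟨Y3, hA⟩ := hA (8 * L' + 10)
  refine ⟨4 * L', c1 * c3 / (512 * Q ^ 4), by positivity, by omega,
    max Y1 (max Y3 (max Q 4)), ?_⟩
  intro Y hY g ρ hpar X hX1 hX2 n hn
  have hYY1 : Y1 ≤ Y := (le_max_left _ _).trans hY
  have hYY3 : Y3 ≤ Y := (le_max_left _ _).trans ((le_max_right _ _).trans hY)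
  have hQY : Q ≤ Y := (le_max_left _ _).trans
    ((le_max_right _ _).trans ((le_max_right _ _).trans hY))
  have hY4 : 4 ≤ Y := (le_max_right _ _).trans
    ((le_max_right _ _).trans ((le_max_right _ _).trans hY))
  obtain ⟨hn1, hn2⟩ := tup_facts hn
  have hg0 : 0 < g := Nat.pos_of_ne_zero hpar.gs.ne_zero
  have hgY : g ≤ Y := (Nat.le_of_dvd hQ0 hpar.gQ).trans hQY
  obtain ⟨A, hAd⟩ : ∃ A, A = n 0 * n 1 ^ 2 := ⟨_, rfl⟩
  obtain ⟨B, hBd⟩ : ∃ B, B = n 2 * n 3 ^ 2 := ⟨_, rfl⟩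
  obtain ⟨C, hCd⟩ : ∃ C, C = n 4 * n 5 ^ 2 := ⟨_, rfl⟩
  obtain ⟨E, hEd⟩ : ∃ E, E = n 6 * n 7 ^ 2 := ⟨_, rfl⟩
  have pos : ∀ i, 0 < n i := fun i => (hn1 i).1
  have hA0 : 0 < A := by rw [hAd]; exact mul_pos (pos 0) (pow_pos (pos 1) 2)
  have hB0 : 0 < B := by rw [hBd]; exact mul_pos (pos 2) (pow_pos (pos 3) 2)
  have hC0 : 0 < C := by rw [hCd]; exact mul_pos (pos 4) (pow_pos (pos 5) 2)
  have hE0 : 0 < E := by rw [hEd]; exact mul_pos (pos 6) (pow_pos (pos 7) 2)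
  have hA1 : A ≡ 1 [MOD Q] := by rw [hAd]; exact sq_mod (hn1 0).2.2.1 (hn1 1).2.2.1
  have hB1 : B ≡ 1 [MOD Q] := by rw [hBd]; exact sq_mod (hn1 2).2.2.1 (hn1 3).2.2.1
  have hC1 : C ≡ 1 [MOD Q] := by rw [hCd]; exact sq_mod (hn1 4).2.2.1 (hn1 5).2.2.1
  have hE1 : E ≡ 1 [MOD Q] := by rw [hEd]; exact sq_mod (hn1 6).2.2.1 (hn1 7).2.2.1
  have hAY : A ≤ Y ^ 3 := by rw [hAd]; exact le_cube (hn1 0).2.1 (hn1 1).2.1
  have hBY : B ≤ Y ^ 3 := by rw [hBd]; exact le_cube (hn1 2).2.1 (hn1 3).2.1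
  have hCY : C ≤ Y ^ 3 := by rw [hCd]; exact le_cube (hn1 4).2.1 (hn1 5).2.1
  have hEY : E ≤ Y ^ 3 := by rw [hEd]; exact le_cube (hn1 6).2.1 (hn1 7).2.1
  have cAB : Nat.Coprime A B := by
    rw [hAd, hBd]
    exact cop_abs (hn2 _ _ (by decide)) (hn2 _ _ (by decide)) (hn2 _ _ (by decide)) (hn2 _ _ (by decide))
  have cAC : Nat.Coprime A C := by
    rw [hAd, hCd]
    exact cop_abs (hn2 _ _ (by decide)) (hn2 _ _ (by decide)) (hn2 _ _ (by decide)) (hn2 _ _ (by decide))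
  have cAE : Nat.Coprime A E := by
    rw [hAd, hEd]
    exact cop_abs (hn2 _ _ (by decide)) (hn2 _ _ (by decide)) (hn2 _ _ (by decide)) (hn2 _ _ (by decide))
  have cBC : Nat.Coprime B C := by
    rw [hBd, hCd]
    exact cop_abs (hn2 _ _ (by decide)) (hn2 _ _ (by decide)) (hn2 _ _ (by decide)) (hn2 _ _ (by decide))
  have cBE : Nat.Coprime B E := by
    rw [hBd, hEd]
    exact cop_abs (hn2 _ _ (by decide)) (hn2 _ _ (by decide)) (hn2 _ _ (by decide)) (hn2 _ _ (by decide))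
  have cCE : Nat.Coprime C E := by
    rw [hCd, hEd]
    exact cop_abs (hn2 _ _ (by decide)) (hn2 _ _ (by decide)) (hn2 _ _ (by decide)) (hn2 _ _ (by decide))
  have hsmall : ∀ p : ℕ, p.Prime → Y < p → ¬ p ∣ A * C * E := by
    intro p hp hpY hd
    have h1 : ∀ i, ¬ p ∣ n i := fun i h => absurd (Nat.le_of_dvd (pos i) h) (by
      have := (hn1 i).2.1; omega)
    have h2 : ∀ i j, ¬ p ∣ n i * n j ^ 2 := by
      intro i j h
      rcases hp.dvd_mul.1 h with h | h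
      · exact h1 i h
      · exact h1 j (hp.dvd_of_dvd_pow h)
    rw [hAd, hCd, hEd] at hd
    rcases hp.dvd_mul.1 hd with h | h
    · rcases hp.dvd_mul.1 h with h | h
      · exact h2 _ _ h
      · exact h2 _ _ h
    · exact h2 _ _ h
  -- U
  obtain ⟨s4, hs4⟩ : ∃ s4, s4 = n 1 * n 3 * n 5 * n 7 := ⟨_, rfl⟩
  have hs40 : 0 < s4 := by
    rw [hs4]; exact mul_pos (mul_pos (mul_pos (pos 1) (pos 3)) (pos 5)) (pos 7)
  have hs4Y : s4 ≤ Y ^ 4 := by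
    rw [hs4]
    calc n 1 * n 3 * n 5 * n 7 ≤ Y * Y * Y * Y := by
          gcongr
          · exact (hn1 1).2.1
          · exact (hn1 3).2.1
          · exact (hn1 5).2.1
          · exact (hn1 7).2.1
      _ = Y ^ 4 := by ring
  obtain ⟨U, hU⟩ : ∃ U, U = Nat.sqrt (Nat.sqrt X * (Q * s4)) := ⟨_, rfl⟩
  have hYpos : 0 < Y := by omega
  have hsX : Y ^ (2 * L') ≤ Nat.sqrt X := by
    rw [Nat.le_sqrt]
    calc Y ^ (2 * L') * Y ^ (2 * L') = Y ^ (4 * L') := by rw [← pow_add]; congr 1; ring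
      _ ≤ X := hX1
  have hU1 : Y ^ L' ≤ U := by
    rw [hU, Nat.le_sqrt]
    calc Y ^ L' * Y ^ L' = Y ^ (2 * L') * 1 := by rw [← pow_add]; ring_nf
      _ ≤ Nat.sqrt X * (Q * s4) := Nat.mul_le_mul hsX (mul_pos hQ0 hs40)
  have hU2 : U ^ 4 ≤ X * (Q * s4) ^ 2 := by
    have h1 : U * U ≤ Nat.sqrt X * (Q * s4) := by rw [hU]; exact Nat.sqrt_le _
    calc U ^ 4 = (U * U) ^ 2 := by ring
      _ ≤ (Nat.sqrt X * (Q * s4)) ^ 2 := by gcongr
      _ = (Nat.sqrt X * Nat.sqrt X) * (Q * s4) ^ 2 := by ring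
      _ ≤ X * (Q * s4) ^ 2 := by
        gcongr
        exact Nat.sqrt_le _
  have hU0 : 0 < U := lt_of_lt_of_le (pow_pos hYpos _) hU1
  have hU3 : Real.sqrt X * (Q * s4) ≤ 8 * (U : ℝ) ^ 2 := by
    have h1 : Real.sqrt X ≤ 2 * (Nat.sqrt X : ℝ) := by
      have h2 := Real.real_sqrt_le_nat_sqrt_succ (a := X)
      have h3 : 1 ≤ Nat.sqrt X := le_trans (Nat.one_le_pow _ _ hYpos) hsX
      have h4 : (1 : ℝ) ≤ Nat.sqrt X := by exact_mod_cast h3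
      linarith
    have h2 : Nat.sqrt X * (Q * s4) < (U + 1) * (U + 1) := by
      rw [hU]; exact Nat.lt_succ_sqrt _
    have h3 : Nat.sqrt X * (Q * s4) ≤ 4 * U ^ 2 := by nlinarith
    have h4 : (Nat.sqrt X : ℝ) * (Q * s4) ≤ 4 * (U : ℝ) ^ 2 := by exact_mod_cast h3
    have h5 : (0 : ℝ) ≤ Q * s4 := by positivity
    nlinarith
  -- S, T
  obtain ⟨D, hD⟩ : ∃ D, D = g * Q ^ 3 * A * C * E := ⟨_, rfl⟩
  have hD0 : 0 < D := by rw [hD]; positivity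
  have h4QB : 4 * Q * B ≤ Y ^ 5 := by
    calc 4 * Q * B ≤ Y * Y * Y ^ 3 := by gcongr
      _ = Y ^ 5 := by ring
  have hDY : D ≤ Y ^ 13 := by
    rw [hD]
    calc g * Q ^ 3 * A * C * E ≤ Y * Y ^ 3 * Y ^ 3 * Y ^ 3 * Y ^ 3 := by gcongr
      _ = Y ^ 13 := by ring
  obtain ⟨S, hS⟩ : ∃ S, S = U / (4 * Q * B) := ⟨_, rfl⟩
  obtain ⟨T, hT⟩ : ∃ T, T = U / (4 * D) := ⟨_, rfl⟩
  have hQB0 : 0 < 4 * Q * B := by positivity
  have hSK : Y ^ K1 ≤ S := by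
    rw [hS, Nat.le_div_iff_mul_le hQB0]
    calc Y ^ K1 * (4 * Q * B) ≤ Y ^ K1 * Y ^ 5 := by gcongr
      _ = Y ^ (K1 + 5) := by rw [pow_add]
      _ ≤ Y ^ L' := Nat.pow_le_pow_right hYpos (by omega)
      _ ≤ U := hU1
  have hTK : Y ^ K3 ≤ T := by
    rw [hT, Nat.le_div_iff_mul_le (by positivity)]
    calc Y ^ K3 * (4 * D) ≤ Y ^ K3 * (Y * Y ^ 13) := by gcongr
      _ = Y ^ (K3 + 14) := by rw [pow_add]; ring
      _ ≤ Y ^ L' := Nat.pow_le_pow_right hYpos (by omega)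
      _ ≤ U := hU1
  have hS0 : 1 ≤ S := le_trans (Nat.one_le_pow _ _ hYpos) hSK
  have hT0 : 1 ≤ T := le_trans (Nat.one_le_pow _ _ hYpos) hTK
  have hSU : 4 * Q * B * S ≤ U := by rw [hS]; exact Nat.mul_div_le _ _
  have hTU : 4 * D * T ≤ U := by rw [hT]; exact Nat.mul_div_le _ _
  have hUS : U ≤ 8 * Q * B * S := by
    have h1 : U < 4 * Q * B * (S + 1) := by rw [hS]; exact Nat.lt_mul_div_succ _ hQB0
    nlinarith
  have hUT : U ≤ 8 * D * T := by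
    have h1 : U < 4 * D * (T + 1) := by rw [hT]; exact Nat.lt_mul_div_succ _ (by positivity)
    nlinarith
  obtain ⟨W, hW⟩ : ∃ W, W = U / 2 := ⟨_, rfl⟩
  have hW12 : Y ^ 12 ≤ W := by
    rw [hW, Nat.le_div_iff_mul_le (by norm_num)]
    calc Y ^ 12 * 2 ≤ Y ^ 12 * Y := by gcongr; omega
      _ = Y ^ 13 := by ring
      _ ≤ Y ^ L' := Nat.pow_le_pow_right hYpos (by omega)
      _ ≤ U := hU1
  have hWD : W + D * (T + 1) ≤ U := by
    have h1 : D * (T + 1) ≤ 2 * D * T := by nlinarith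
    have h2 : 2 * D * T ≤ U / 2 := by
      rw [Nat.le_div_iff_mul_le (by norm_num)]
      calc 2 * D * T * 2 = 4 * D * T := by ring
        _ ≤ U := hTU
    omega
  have hT2 : 2 * (W + D * (T + 1)) ≤ T * Y ^ 25 := by
    calc 2 * (W + D * (T + 1)) ≤ 2 * U := by omega
      _ ≤ 2 * (8 * D * T) := by omega
      _ = T * (16 * D) := by ring
      _ ≤ T * (Y ^ 2 * Y ^ 13) := by
        gcongr
        nlinarith
      _ = T * Y ^ 15 := by ring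
      _ ≤ T * Y ^ 25 := by gcongr <;> omega
  -- the β
  obtain ⟨Bs, hBs⟩ : ∃ Bs, Bs = (Icc 1 S).filter
      (fun s => Rough Y (1 + Q * s) ∧ Squarefree (1 + Q * s)) := ⟨_, rfl⟩
  have hBcard := hB Y hYY1 S hSK
  rw [← hBs] at hBcard
  have hvW : ∀ s ∈ Bs, B * (1 + Q * s) ≤ W := by
    intro s hs
    rw [hBs, mem_filter, mem_Icc] at hs
    rw [hW, Nat.le_div_iff_mul_le (by norm_num)]
    have h1 : 1 + Q * s ≤ 2 * Q * S := by
      have h2 : Q * s ≤ Q * S := Nat.mul_le_mul_left _ hs.1.2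
      have h3 : 1 ≤ Q * S := Nat.mul_pos hQ0 hS0
      have h4 : 2 * Q * S = Q * S + Q * S := by ring
      omega
    calc B * (1 + Q * s) * 2 ≤ B * (2 * Q * S) * 2 := by gcongr
      _ = 4 * Q * B * S := by ring
      _ ≤ U := hSU
  have hbase : ∀ s : ℕ, ∃ α γ ε : ℕ, s ∈ Bs → (g * Q ^ 2 * A * α = B * (1 + Q * s) + C * γ ∧
      E * ε = g * Q ^ 2 * A * α + B * (1 + Q * s) ∧ Q ∣ α + ρ ∧
      W < g * Q ^ 2 * A * α ∧ g * Q ^ 2 * A * α ≤ W + g * Q ^ 3 * A * C * E) := by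
    intro s
    by_cases hs : s ∈ Bs
    · obtain ⟨α, γ, ε, h⟩ := hBASE Q g ρ A C E (B * (1 + Q * s)) W hQ0 hg0 hA0 hC0 hE0 hpar.gQ
        (cop_of_mod hA1) (cop_of_mod hC1) (cop_of_mod hE1) cAC cAE cCE (hvW s hs)
      exact ⟨α, γ, ε, fun _ => h⟩
    · exact ⟨0, 0, 0, fun h => absurd h hs⟩
  choose α0 γ0 ε0 hbase using hbase
  -- the t
  obtain ⟨Ts, hTs⟩ : ∃ Ts : ℕ → Finset ℕ, Ts = fun s => (Icc 1 T).filter
    (fun t => GoodT Y (1 + Q * s) (α0 s) (γ0 s) (ε0 s) (Q * C * E) (g * Q ^ 3 * A * E)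
      (g * Q ^ 3 * A * C) t) := ⟨_, rfl⟩
  have hnotv : ∀ s ∈ Bs, ∀ p : ℕ, p.Prime → p ≤ Y → p ∣ A * C * E * Q → ¬ p ∣ B * (1 + Q * s) := by
    intro s hs p hp hpY hd hv
    rw [hBs, mem_filter] at hs
    rcases hp.dvd_mul.1 hv with h1 | h1
    · have hco : Nat.Coprime (A * C * E * Q) B := by
        apply Nat.Coprime.mul_left
        · apply Nat.Coprime.mul_left
          · exact Nat.Coprime.mul_left cAB cBC.symm
          · exact cBE.symm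
        · exact (cop_of_mod hB1).symm
      have := Nat.dvd_gcd hd h1
      rw [hco] at this
      exact hp.one_lt.ne' (Nat.dvd_one.1 this)
    · exact hs.2.1 p hp hpY h1
  have hβJ : ∀ s ∈ Bs, 1 + Q * s ≤ Y ^ (8 * L' + 10) := by
    intro s hs
    calc 1 + Q * s ≤ B * (1 + Q * s) := Nat.le_mul_of_pos_left _ hB0
      _ ≤ W := hvW s hs
      _ ≤ U := by rw [hW]; exact Nat.div_le_self _ _
      _ ≤ U ^ 4 := Nat.le_self_pow (by norm_num) _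
      _ ≤ X * (Q * s4) ^ 2 := hU2
      _ ≤ Y ^ (2 * (4 * L')) * (Y * Y ^ 4) ^ 2 := by gcongr
      _ = Y ^ (8 * L' + 10) := by rw [pow_add]; ring
  have hTcard : ∀ s ∈ Bs, c3 * T / Real.log Y ^ 3 ≤ ((Ts s).card : ℝ) := by
    intro s hs
    obtain ⟨b1, b2, b3, b4, b5⟩ := hbase s hs
    rw [hTs]
    have hD' : g * Q ^ 3 * A * C * E = D := hD.symm
    exact hA Y hYY3 Q g ρ A C E (B * (1 + Q * s)) (1 + Q * s) W T (α0 s) (γ0 s) (ε0 s) hpar hQY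
      hA0 hC0 hE0 hA1 hC1 hE1 hsmall (hnotv s hs) (by positivity) b1 b2 b3 (hvW s hs) b4 b5 hTK
      (by rw [hD']; exact hT2) (by omega) (hβJ s hs)
  -- the map
  obtain ⟨F, hF⟩ : ∃ F : Finset (Σ _ : ℕ, ℕ), F = Bs.sigma Ts := ⟨_, rfl⟩
  obtain ⟨φ, hφ⟩ : ∃ φ : (Σ _ : ℕ, ℕ) → ℕ × ℕ × ℕ × ℕ, φ = fun x =>
    (α0 x.1 + Q * C * E * x.2, 1 + Q * x.1, γ0 x.1 + g * Q ^ 3 * A * E * x.2,
      ε0 x.1 + g * Q ^ 3 * A * C * x.2) := ⟨_, rfl⟩
  have hinj : Set.InjOn φ F := by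
    rintro ⟨s, t⟩ - ⟨s', t'⟩ - he
    rw [hφ] at he
    simp only [Prod.mk.injEq] at he
    obtain ⟨he1, he2, -, -⟩ := he
    have hss : s = s' := by
      have h1 : Q * s = Q * s' := by omega
      exact Nat.eq_of_mul_eq_mul_left hQ0 h1
    subst hss
    have h2 : Q * C * E * t = Q * C * E * t' := by omega
    have h3 : t = t' := Nat.eq_of_mul_eq_mul_left (by positivity) h2
    rw [h3]
  have hrep : ∀ x ∈ F, IsRep Q g ρ Y X n (φ x).1 (φ x).2.1 (φ x).2.2.1 (φ x).2.2.2 := by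
    rintro ⟨s, t⟩ hx
    rw [hF, mem_sigma] at hx
    obtain ⟨hs, ht⟩ := hx
    simp only at hs ht
    rw [hTs] at ht
    simp only [mem_filter, mem_Icc] at ht
    obtain ⟨ht1, hgood⟩ := ht
    obtain ⟨b1, b2, b3, b4, b5⟩ := hbase s hs
    have hs' := hs
    rw [hBs, mem_filter] at hs'
    rw [hφ]
    simp only
    have k1 : g * Q ^ 2 * A * (α0 s + Q * C * E * t) = g * Q ^ 2 * A * α0 s + D * t := by
      rw [hD]; ring
    have k2 : g * Q ^ 2 * A * (α0 s + Q * C * E * t) ≤ U := by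
      rw [k1]
      have : D * t ≤ D * T := Nat.mul_le_mul_left _ ht1.2
      have h5 : D * (T + 1) = D * T + D := by ring
      rw [← hD] at b5
      omega
    refine ⟨hn, ?_, ?_, ?_, ?_, hgood.ra, hs'.2.1, hgood.rc, hgood.re, hgood.sa, hs'.2.2,
      hgood.sc, hgood.se, hgood.co, ?_, ?_⟩
    · rw [← hAd, ← hBd, ← hCd]
      calc g * Q ^ 2 * A * (α0 s + Q * C * E * t)
          = g * Q ^ 2 * A * α0 s + g * Q ^ 2 * A * (Q * C * E) * t := by ring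
        _ = B * (1 + Q * s) + C * γ0 s + g * Q ^ 2 * A * (Q * C * E) * t := by rw [b1]
        _ = B * (1 + Q * s) + C * (γ0 s + g * Q ^ 3 * A * E * t) := by ring
    · rw [← hAd, ← hBd, ← hEd]
      calc E * (ε0 s + g * Q ^ 3 * A * C * t)
          = E * ε0 s + E * (g * Q ^ 3 * A * C) * t := by ring
        _ = g * Q ^ 2 * A * α0 s + B * (1 + Q * s) + E * (g * Q ^ 3 * A * C) * t := by rw [b2]
        _ = g * Q ^ 2 * A * (α0 s + Q * C * E * t) + B * (1 + Q * s) := by ring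
    · have : α0 s + Q * C * E * t + ρ = (α0 s + ρ) + Q * (C * E * t) := by ring
      rw [this]
      exact dvd_add b3 (dvd_mul_right _ _)
    · have : 1 + Q * s ≡ 1 + 0 [MOD Q] :=
        Nat.ModEq.add_left 1 ((Nat.modEq_zero_iff_dvd.2 (dvd_mul_right Q s)))
      exact this
    · by_contra hcon
      push Not at hcon
      have h1 : g * Q ^ 2 * A * (α0 s + Q * C * E * t) ≤ Y ^ 12 := by
        calc g * Q ^ 2 * A * (α0 s + Q * C * E * t) ≤ Y * Y ^ 2 * Y ^ 3 * Y ^ 6 := by gcongr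
          _ = Y ^ 12 := by ring
      rw [k1] at h1
      omega
    · rw [← hAd]
      have : n 1 * n 3 * n 5 * n 7 = s4 := hs4.symm
      rw [this]
      exact (Nat.pow_le_pow_left k2 4).trans hU2
  -- finiteness
  have hfin : {p : ℕ × ℕ × ℕ × ℕ | IsRep Q g ρ Y X n p.1 p.2.1 p.2.2.1 p.2.2.2}.Finite := by
    obtain ⟨Z, hZ⟩ : ∃ Z, Z = 2 * (X * (Q * (n 1 * n 3 * n 5 * n 7)) ^ 2) := ⟨_, rfl⟩
    apply Set.Finite.subset (Set.Finite.prod (Set.finite_Iic Z)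
      (Set.Finite.prod (Set.finite_Iic Z) (Set.Finite.prod (Set.finite_Iic Z) (Set.finite_Iic Z))))
    rintro ⟨a, b, c, e⟩ h
    have h : IsRep Q g ρ Y X n a b c e := h
    have s1 := h.size
    have s2 := h.e1
    have s3 := h.e2
    rw [← hAd, ← hBd, ← hCd] at s2
    rw [← hAd, ← hBd, ← hEd] at s3
    rw [← hAd] at s1
    obtain ⟨u, hu⟩ : ∃ u, u = g * Q ^ 2 * A * a := ⟨_, rfl⟩
    rw [← hu] at s1 s2 s3
    have h1 : u ≤ u ^ 4 := Nat.le_self_pow (by norm_num) _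
    have h2 : a ≤ u := by rw [hu]; exact Nat.le_mul_of_pos_left _ (by positivity)
    have h3 : b ≤ B * b := Nat.le_mul_of_pos_left _ hB0
    have h4 : c ≤ C * c := Nat.le_mul_of_pos_left _ hC0
    have h5 : e ≤ E * e := Nat.le_mul_of_pos_left _ hE0
    refine ⟨?_, ?_, ?_, ?_⟩ <;> simp only [Set.mem_Iic] <;> omega
  have hcount : F.card ≤
      {p : ℕ × ℕ × ℕ × ℕ | IsRep Q g ρ Y X n p.1 p.2.1 p.2.2.1 p.2.2.2}.ncard := by
    rw [← Finset.card_image_of_injOn hinj, ← Set.ncard_coe_finset]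
    apply Set.ncard_le_ncard _ hfin
    rintro p hp
    rw [Finset.mem_coe, mem_image] at hp
    obtain ⟨x, hx, rfl⟩ := hp
    exact hrep x hx
  refine le_trans ?_ (Nat.cast_le.2 hcount)
  rw [hF, card_sigma, Nat.cast_sum]
  -- numbers
  have hYr : (4 : ℝ) ≤ Y := by exact_mod_cast hY4
  have hlog : 0 < Real.log Y := Real.log_pos (by linarith)
  have hsum : (Bs.card : ℝ) * (c3 * T / Real.log Y ^ 3) ≤ ∑ s ∈ Bs, ((Ts s).card : ℝ) := by
    rw [← nsmul_eq_mul]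
    exact Finset.card_nsmul_le_sum _ _ _ hTcard
  refine le_trans ?_ hsum
  have hT3 : 0 ≤ c3 * T / Real.log Y ^ 3 := by positivity
  refine le_trans ?_ (mul_le_mul_of_nonneg_right hBcard hT3)
  have hprod : (∏ i, (n i : ℝ)) = ((n 0 * n 2 * n 4 * n 6 * s4 : ℕ) : ℝ) := by
    rw [hs4, Fin.prod_univ_eight]
    push_cast
    ring
  rw [hprod]
  obtain ⟨P, hP⟩ : ∃ P, P = n 0 * n 2 * n 4 * n 6 * s4 := ⟨_, rfl⟩
  have hP0 : 0 < P := by
    rw [hP]; exact mul_pos (mul_pos (mul_pos (mul_pos (pos 0) (pos 2)) (pos 4)) (pos 6)) hs40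
  rw [← hP]
  have hABCE : A * B * C * E = P * s4 := by
    rw [hAd, hBd, hCd, hEd, hP, hs4]; ring
  -- √X ≤ 512 Q^4 P S T
  have hkey : Real.sqrt X ≤ 512 * Q ^ 4 * P * S * T := by
    have h1 : (U : ℝ) ≤ 8 * Q * B * S := by exact_mod_cast hUS
    have h2 : (U : ℝ) ≤ 8 * D * T := by exact_mod_cast hUT
    have h3 : (U : ℝ) ^ 2 ≤ (8 * Q * B * S) * (8 * D * T) := by
      rw [pow_two]; exact mul_le_mul h1 h2 (Nat.cast_nonneg _) (by positivity)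
    have h4 : Real.sqrt X * (Q * s4) ≤ 8 * ((8 * Q * B * S) * (8 * D * T)) := by linarith
    have h5 : (D : ℝ) = g * Q ^ 3 * A * C * E := by rw [hD]; push_cast; ring
    have h6 : (A : ℝ) * B * C * E = P * s4 := by exact_mod_cast hABCE
    have h7 : (8 : ℝ) * ((8 * Q * B * S) * (8 * D * T)) = (512 * g * Q ^ 3 * P * S * T) * (Q * s4) := by
      rw [h5]
      calc (8 : ℝ) * ((8 * Q * B * S) * (8 * (g * Q ^ 3 * A * C * E) * T)) =
          (512 : ℝ) * g * Q ^ 4 * S * T * (A * B * C * E) := by ring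
        _ = (512 : ℝ) * g * Q ^ 4 * S * T * (P * s4) := by rw [h6]
        _ = (512 * g * Q ^ 3 * P * S * T) * (Q * s4) := by ring
    rw [h7] at h4
    have hQs : (0 : ℝ) < Q * s4 := by positivity
    have h8 := le_of_mul_le_mul_right h4 hQs
    refine h8.trans ?_
    have h9 : (g : ℝ) ≤ Q := by exact_mod_cast Nat.le_of_dvd hQ0 hpar.gQ
    calc (512 : ℝ) * g * Q ^ 3 * P * S * T ≤ (512 : ℝ) * Q * Q ^ 3 * P * S * T := by gcongr
      _ = (512 : ℝ) * Q ^ 4 * P * S * T := by ring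
  have hPr : (0 : ℝ) < P := by exact_mod_cast hP0
  have hQr : (0 : ℝ) < Q := by exact_mod_cast hQ0
  calc c1 * c3 / (512 * Q ^ 4) * Real.sqrt X / (P * Real.log Y ^ 4)
      ≤ c1 * c3 / (512 * Q ^ 4) * (512 * Q ^ 4 * P * S * T) / (P * Real.log Y ^ 4) := by
        gcongr
    _ = c1 * S / Real.log Y * (c3 * T / Real.log Y ^ 3) := by
        field_simp

end Pool.Agent.T2h88.LG
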