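import Pool.Agent.T2h88.LG.Stm

set_option autoImplicit false

/-! # SQ: squares of large primes in a progression -/

open Finset

namespace Pool.Agent.T2h88.LG

namespace SQ

theorem one (A B T p : ℕ) (hp : p.Prime) (hB : ¬ p ∣ B) :
    ((Icc 1 T).filter (fun t => p ^ 2 ∣ A + B * t)).card ≤ T / p ^ 2 + 1 := by
  have hp2 : 0 < p ^ 2 := pow_pos hp.pos 2
  rw [← Finset.card_range (T / p ^ 2 + 1)]
  refine Finset.card_le_card_of_injOn (fun t => t / p ^ 2) ?_ ?_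
  · intro t ht
    rw [Finset.mem_coe, Finset.mem_filter, Finset.mem_Icc] at ht
    rw [Finset.mem_coe, Finset.mem_range, Nat.lt_succ_iff]
    exact Nat.div_le_div_right ht.1.2
  · intro t ht t' ht' h
    rw [Finset.mem_coe, Finset.mem_filter] at ht ht'
    simp only at h
    have hco : Nat.Coprime (p ^ 2) B := Nat.Coprime.pow_left 2 ((Nat.Prime.coprime_iff_not_dvd hp).2 hB)
    have h1 : B * t ≡ B * t' [MOD p ^ 2] := by
      have h2 : A + B * t ≡ A + B * t' [MOD p ^ 2] :=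
        ((Nat.modEq_zero_iff_dvd.2 ht.2).trans (Nat.modEq_zero_iff_dvd.2 ht'.2).symm)
      exact Nat.ModEq.add_left_cancel' A h2
    have h3 : t ≡ t' [MOD p ^ 2] := Nat.ModEq.cancel_left_of_coprime hco h1
    have h4 : t % p ^ 2 = t' % p ^ 2 := h3
    rw [← Nat.div_add_mod t (p ^ 2), ← Nat.div_add_mod t' (p ^ 2), h, h4]

theorem tail (y H : ℕ) (hy : 1 ≤ y) :
    ∑ p ∈ Ioc y H, (1 : ℝ) / (p : ℝ) ^ 2 ≤ 1 / y := by
  have h : ∀ H : ℕ, y ≤ H → ∑ p ∈ Ioc y H, (1 : ℝ) / (p : ℝ) ^ 2 ≤ 1 / y - 1 / H := by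
    intro H hH
    induction H, hH using Nat.le_induction with
    | base => simp
    | succ n hn ih =>
      rw [Finset.sum_Ioc_succ_top (by omega)]
      have hn0 : (0 : ℝ) < n := by exact_mod_cast (by omega : 0 < n)
      have h1 : (1 : ℝ) / ((n + 1 : ℕ) : ℝ) ^ 2 ≤ 1 / n - 1 / ((n + 1 : ℕ) : ℝ) := by
        push_cast
        rw [div_sub_div _ _ hn0.ne' (by positivity), div_le_div_iff₀ (by positivity) (by positivity)]
        nlinarith
      linarith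
  rcases le_total y H with hH | hH
  · refine (h H hH).trans ?_
    have : (0 : ℝ) ≤ 1 / H := by positivity
    linarith
  · rw [Finset.Ioc_eq_empty_of_le hH]
    simp

end SQ

theorem t_SQ : S_SQ := by
  intro A B T y H hy hA hH
  classical
  have h1 : ((Icc 1 T).filter (fun t => ∃ p : ℕ, p.Prime ∧ y < p ∧ ¬ p ∣ B ∧ p ^ 2 ∣ A + B * t)) ⊆
      ((Ioc y H).filter (fun p => p.Prime ∧ ¬ p ∣ B)).biUnion
        (fun p => (Icc 1 T).filter (fun t => p ^ 2 ∣ A + B * t)) := by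
    intro t ht
    rw [Finset.mem_filter] at ht
    obtain ⟨htT, p, hp, hyp, hpB, hd⟩ := ht
    rw [Finset.mem_biUnion]
    refine ⟨p, ?_, Finset.mem_filter.2 ⟨htT, hd⟩⟩
    rw [Finset.mem_filter, Finset.mem_Ioc]
    refine ⟨⟨hyp, ?_⟩, hp, hpB⟩
    have h2 : p ^ 2 ≤ A + B * t := Nat.le_of_dvd (by positivity) hd
    exact (Nat.pow_le_pow_iff_left (by norm_num)).1 (h2.trans (hH t (Finset.mem_Icc.1 htT).2))
  have h2 : ((((Icc 1 T).filter
      (fun t => ∃ p : ℕ, p.Prime ∧ y < p ∧ ¬ p ∣ B ∧ p ^ 2 ∣ A + B * t)).card : ℕ) : ℝ) ≤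
      ∑ p ∈ (Ioc y H).filter (fun p => p.Prime ∧ ¬ p ∣ B), ((T : ℝ) / (p : ℝ) ^ 2 + 1) := by
    have h3 := (Finset.card_le_card h1).trans Finset.card_biUnion_le
    refine (Nat.cast_le.2 h3).trans ?_
    rw [Nat.cast_sum]
    refine Finset.sum_le_sum fun p hp => ?_
    rw [Finset.mem_filter] at hp
    have h4 := SQ.one A B T p hp.2.1 hp.2.2
    refine (Nat.cast_le.2 h4).trans ?_
    push_cast
    have h5 : ((T / p ^ 2 : ℕ) : ℝ) ≤ (T : ℝ) / ((p ^ 2 : ℕ) : ℝ) := Nat.cast_div_le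
    push_cast at h5
    linarith
  have h3 : ∑ p ∈ (Ioc y H).filter (fun p => p.Prime ∧ ¬ p ∣ B), ((T : ℝ) / (p : ℝ) ^ 2 + 1) ≤
      ∑ p ∈ Ioc y H, ((T : ℝ) / (p : ℝ) ^ 2 + 1) :=
    Finset.sum_le_sum_of_subset_of_nonneg (Finset.filter_subset _ _) fun p _ _ => by positivity
  have h4 : ∑ p ∈ Ioc y H, ((T : ℝ) / (p : ℝ) ^ 2 + 1) =
      T * ∑ p ∈ Ioc y H, (1 : ℝ) / (p : ℝ) ^ 2 + (Ioc y H).card := by
    rw [Finset.sum_add_distrib, Finset.mul_sum]
    congr 1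
    · exact Finset.sum_congr rfl fun p _ => by ring
    · simp
  have h5 : (T : ℝ) * ∑ p ∈ Ioc y H, (1 : ℝ) / (p : ℝ) ^ 2 ≤ T * (1 / y) :=
    mul_le_mul_of_nonneg_left (SQ.tail y H hy) (by positivity)
  have h6 : (((Ioc y H).card : ℕ) : ℝ) ≤ H := by
    rw [Nat.card_Ioc]
    exact_mod_cast Nat.sub_le _ _
  have h7 : (T : ℝ) * (1 / y) = T / y := by ring
  refine le_trans (le_of_eq (by congr)) ((h2.trans h3).trans ?_)
  rw [h4]
  linarith

end Pool.Agent.T2h88.LG
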