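import Mathlib
import Pool.Agent.T2h88.LG.Stm
import Pool.Agent.TH464.PO.Gen

set_option autoImplicit false

open Finset

namespace Pool.Agent.T2h88.LG

namespace SV

open Pool.Agent.H373R2.T7 Pool.Agent.TH464.PO Pool.Agent.W123.RU Pool.Agent.W123.RP

/-- the condition -/
def Cd {k : ℕ} (A B : Fin k → ℕ) (p t : ℕ) : Prop := ∃ i, ¬ p ∣ B i ∧ p ∣ A i + B i * t

lemma dvd_iff {a b p n : ℕ} : p ∣ a + b * n ↔ p ∣ a + b * (n % p) := by
  have h : a + b * n = a + b * (n % p) + p * (b * (n / p)) := by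
    conv_lhs => rw [← Nat.mod_add_div n p]
    ring
  rw [h]
  exact (Nat.dvd_add_left (dvd_mul_right p _))

lemma perB {k : ℕ} (A B : Fin k → ℕ) : PerB (Cd A B) k := by
  classical
  refine ⟨fun p n => ?_, fun p hp => ?_⟩
  · unfold Cd
    apply exists_congr
    intro i
    rw [dvd_iff]
  · unfold nuB
    have hsub : ((range p).filter (fun r => Cd A B p r)) ⊆
        (Finset.univ : Finset (Fin k)).biUnion
          (fun i => (range p).filter (fun r => ¬ p ∣ B i ∧ p ∣ A i + B i * r)) := by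
      intro r hr
      rw [mem_filter] at hr
      obtain ⟨i, hi⟩ := hr.2
      rw [mem_biUnion]
      exact ⟨i, mem_univ _, mem_filter.2 ⟨hr.1, hi⟩⟩
    refine (card_le_card hsub).trans (card_biUnion_le.trans ?_)
    have h1 : ∀ i : Fin k, ((range p).filter (fun r => ¬ p ∣ B i ∧ p ∣ A i + B i * r)).card ≤ 1 := by
      intro i
      rw [card_le_one]
      intro r hr s hs
      rw [mem_filter, mem_range] at hr hs
      have hpi : Prime (p : ℤ) := Nat.prime_iff_prime_int.1 hp
      have h2 : (p : ℤ) ∣ (B i : ℤ) * ((r : ℤ) - s) := by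
        have h3 : (p : ℤ) ∣ ((A i + B i * r : ℕ) : ℤ) := by exact_mod_cast hr.2.2
        have h4 : (p : ℤ) ∣ ((A i + B i * s : ℕ) : ℤ) := by exact_mod_cast hs.2.2
        have h5 := dvd_sub h3 h4
        have h6 : ((A i + B i * r : ℕ) : ℤ) - ((A i + B i * s : ℕ) : ℤ) =
            (B i : ℤ) * ((r : ℤ) - s) := by push_cast; ring
        rwa [h6] at h5
      have h7 : (p : ℤ) ∣ (r : ℤ) - s := by
        rcases hpi.dvd_or_dvd h2 with h | h
        · exact absurd (by exact_mod_cast h) hr.2.1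
        · exact h
      have h8 := Int.eq_zero_of_abs_lt_dvd h7 (by
        rw [abs_lt]
        constructor <;> omega)
      omega
    calc ∑ i : Fin k, ((range p).filter (fun r => ¬ p ∣ B i ∧ p ∣ A i + B i * r)).card
        ≤ ∑ i : Fin k, 1 := Finset.sum_le_sum fun i _ => h1 i
      _ = k := by simp

lemma adm {k : ℕ} (A B : Fin k → ℕ) (h : ∀ p : ℕ, p.Prime → p ≤ k → ∀ i, p ∣ B i) (p : ℕ)
    (hp : p.Prime) : nuB (Cd A B) p < p := by
  classical
  by_cases hk : p ≤ k
  · have : nuB (Cd A B) p = 0 := by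
      unfold nuB
      rw [card_eq_zero, filter_eq_empty_iff]
      rintro r _ ⟨i, hi, _⟩
      exact hi (h p hp hk i)
    rw [this]
    exact hp.pos
  · exact lt_of_le_of_lt ((perB A B).few p hp) (by omega)

end SV

open SV Pool.Agent.H373R2.T7 Pool.Agent.TH464.PO Pool.Agent.W123.RU Pool.Agent.W123.RP in
theorem t_SV : S_SV := by
  classical
  intro k hk
  obtain ⟨v, hv, hV⟩ := V_lower_unif k
  obtain ⟨K, x0, hK, hfund⟩ := sys_fund k hk (1 / 2) (by norm_num)
  -- y large: (log y)^k * 4 ≤ v √y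
  have hev : ∀ᶠ y : ℕ in Filter.atTop, Real.log y ^ k ≤ (v / 4) * Real.sqrt y := by
    have h1 := isLittleO_log_rpow_rpow_atTop (k : ℝ) (show (0 : ℝ) < 1 / 2 by norm_num)
    have h2 := (h1.comp_tendsto tendsto_natCast_atTop_atTop).bound
      (show (0 : ℝ) < v / 4 by positivity)
    filter_upwards [h2, Filter.eventually_ge_atTop 1] with y hy hy1
    have hy1' : (1 : ℝ) ≤ y := by exact_mod_cast hy1
    simp only [Function.comp_apply, Real.norm_eq_abs] at hy
    rw [Real.rpow_natCast, ← Real.sqrt_eq_rpow] at hy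
    have h3 : 0 ≤ Real.log y ^ k := pow_nonneg (Real.log_nonneg hy1') _
    rwa [abs_of_nonneg h3, abs_of_nonneg (Real.sqrt_nonneg _)] at hy
  obtain ⟨y1, hy1⟩ := Filter.eventually_atTop.1 hev
  refine ⟨K, max x0 (max y1 2), v / 4, by positivity, hK, fun T y hy hyT A B hAB => ?_⟩
  have hyx : x0 ≤ y := (le_max_left _ _).trans hy
  have hyy : y1 ≤ y := (le_max_left _ _).trans ((le_max_right _ _).trans hy)
  have hy2 : 2 ≤ y := (le_max_right _ _).trans ((le_max_right _ _).trans hy)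
  have h1 := hfund T y hyx hyT (Cd A B) (perB A B) T
  have h2 := hV (Cd A B) (perB A B) (adm A B hAB) y hy2
  have h3 := hy1 y hyy
  have hVq : Vq (Cd A B) y = ∏ p ∈ pz y, (1 - (nuB (Cd A B) p : ℝ) / p) := rfl
  rw [← hVq] at h1
  have h4 := (abs_le.1 h1).1
  have hyT' : y ≤ T := (Nat.le_self_pow (by omega) y).trans hyT
  have hlog : 0 < Real.log y := Real.log_pos (by exact_mod_cast (by omega : 1 < y))
  have hlk : 0 < Real.log y ^ k := pow_pos hlog k
  have hT0 : (0 : ℝ) ≤ T := Nat.cast_nonneg T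
  have hsq : Real.sqrt T ≤ v / 4 * T / Real.log y ^ k := by
    rw [le_div_iff₀ hlk]
    have h5 : Real.sqrt y ≤ Real.sqrt T := Real.sqrt_le_sqrt (by exact_mod_cast hyT')
    have h6 : Real.sqrt T * Real.sqrt T = T := Real.mul_self_sqrt hT0
    calc Real.sqrt T * Real.log y ^ k ≤ Real.sqrt T * ((v / 4) * Real.sqrt T) := by
          apply mul_le_mul_of_nonneg_left _ (Real.sqrt_nonneg _)
          exact h3.trans (mul_le_mul_of_nonneg_left h5 (by positivity))
      _ = v / 4 * (Real.sqrt T * Real.sqrt T) := by ring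
      _ = v / 4 * T := by rw [h6]
  have h7 : v / Real.log y ^ k * T ≤ Vq (Cd A B) y * T := mul_le_mul_of_nonneg_right h2 hT0
  have h8 : v / 4 * T / Real.log y ^ k = 1 / 4 * (v / Real.log y ^ k * T) := by ring
  have h9 : v / 4 * T / Real.log y ^ k ≤
      (((Icc 1 T).filter (fun n : ℕ => ∀ p ∈ pz y, ¬ Cd A B p n)).card : ℝ) := by
    rw [h8] at hsq ⊢
    nlinarith
  refine h9.trans ?_
  apply Nat.cast_le.2
  apply card_le_card
  intro t ht
  rw [mem_filter] at ht ⊢
  refine ⟨ht.1, fun p hp hpy i => ?_⟩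
  by_contra hcon
  push Not at hcon
  exact ht.2 p (mem_pz.2 ⟨hpy, hp⟩) ⟨i, hcon.1, hcon.2⟩

end Pool.Agent.T2h88.LG
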