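import Pool.Agent.T2h88.LG.Stm

set_option autoImplicit false

open Finset

namespace Pool.Agent.T2h88.LG.TUP

/-- the numbers in `[1, Y]`, `≡ 1` modulo `Q` -/
def Z (Q Y : ℕ) : Finset ℕ := (Icc 1 Y).filter (fun m => m ≡ 1 [MOD Q])

/-- number of elements minus one -/
def K (Q Y : ℕ) : ℕ := (Y - 1) / Q

theorem Z_eq {Q Y : ℕ} (hQ : 0 < Q) (hY : 1 ≤ Y) :
    Z Q Y = (range (K Q Y + 1)).image (fun j => 1 + Q * j) := by
  ext m
  unfold Z K
  rw [mem_filter, mem_Icc, mem_image]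
  constructor
  · rintro ⟨⟨h1, h2⟩, h3⟩
    have h4 : Q ∣ m - 1 := (Nat.modEq_iff_dvd' h1).1 h3.symm
    obtain ⟨j, hj⟩ := h4
    refine ⟨j, ?_, by omega⟩
    rw [mem_range]
    have h5 : Q * j ≤ Y - 1 := by omega
    have h6 : j ≤ (Y - 1) / Q := by
      rw [Nat.le_div_iff_mul_le hQ, mul_comm]
      exact h5
    omega
  · rintro ⟨j, hj, rfl⟩
    rw [mem_range] at hj
    have h6 : j ≤ (Y - 1) / Q := by omega
    rw [Nat.le_div_iff_mul_le hQ, mul_comm] at h6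
    refine ⟨⟨by omega, by omega⟩, ?_⟩
    unfold Nat.ModEq
    rw [Nat.add_mul_mod_self_left]

/-- the sum over the multiples of `d` -/
noncomputable def Sd (Q Y d : ℕ) : ℝ := ∑ m ∈ Z Q Y, if d ∣ m then ((m : ℝ))⁻¹ else 0

/-- the sum -/
noncomputable def SS (Q Y : ℕ) : ℝ := ∑ m ∈ Z Q Y, ((m : ℝ))⁻¹

/-- harmonic sum -/
noncomputable def H (Q Y : ℕ) : ℝ := ∑ j ∈ range (K Q Y), ((j : ℝ) + 1)⁻¹

theorem inj_lin {Q : ℕ} (hQ : 0 < Q) : Function.Injective (fun j : ℕ => 1 + Q * j) := by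
  intro a b h
  have h1 : Q * a = Q * b := by
    have : 1 + Q * a = 1 + Q * b := h
    omega
  exact Nat.eq_of_mul_eq_mul_left hQ h1

theorem H_nonneg (Q Y : ℕ) : 0 ≤ H Q Y := sum_nonneg fun j _ => by positivity

theorem SS_ge {Q Y : ℕ} (hQ : 0 < Q) (hY : 1 ≤ Y) : (1 / 2) * (1 + H Q Y / Q) ≤ SS Q Y := by
  have hQr : (0 : ℝ) < Q := by exact_mod_cast hQ
  have hQ1 : (1 : ℝ) ≤ Q := by exact_mod_cast hQ
  unfold SS
  rw [Z_eq hQ hY, sum_image (fun a _ b _ h => inj_lin hQ h), sum_range_succ']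
  have h1 : H Q Y / (2 * Q) ≤ ∑ k ∈ range (K Q Y), (((1 + Q * (k + 1) : ℕ) : ℝ))⁻¹ := by
    unfold H
    rw [sum_div]
    refine sum_le_sum fun j _ => ?_
    have h2 : (0 : ℝ) ≤ j := by positivity
    have h3 : (1 : ℝ) ≤ Q * (j + 1) := by nlinarith
    rw [inv_eq_one_div, inv_eq_one_div, div_div, div_le_div_iff₀ (by positivity) (by positivity)]
    push_cast
    nlinarith
  have h2 : (((1 + Q * 0 : ℕ) : ℝ))⁻¹ = 1 := by norm_num
  rw [h2]
  have h3 : H Q Y / (2 * Q) = (1 / 2) * (H Q Y / Q) := by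
    field_simp
  rw [h3] at h1
  linarith

theorem Sd_le {Q Y d : ℕ} (hQ : 0 < Q) (hY : 1 ≤ Y) (hd : 0 < d) (hc : Nat.Coprime d Q) :
    Sd Q Y d ≤ (1 / d) * (1 + H Q Y / Q) := by
  have hQr : (0 : ℝ) < Q := by exact_mod_cast hQ
  have hdr : (0 : ℝ) < d := by exact_mod_cast hd
  unfold Sd
  rw [Z_eq hQ hY, sum_image (fun a _ b _ h => inj_lin hQ h), ← sum_filter]
  set Jd := (range (K Q Y + 1)).filter (fun j => d ∣ 1 + Q * j) with hJd
  let F : ℕ → ℝ := fun i => if i = 0 then 1 / (d : ℝ) else 1 / ((Q : ℝ) * d * i)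
  have hF : ∀ i, 0 ≤ F i := by
    intro i
    show 0 ≤ (if i = 0 then 1 / (d : ℝ) else 1 / ((Q : ℝ) * d * i))
    split_ifs <;> positivity
  have h1 : ∀ j ∈ Jd, (((1 + Q * j : ℕ) : ℝ))⁻¹ ≤ F (j / d) := by
    intro j hj
    rw [hJd, mem_filter] at hj
    show _ ≤ (if j / d = 0 then 1 / (d : ℝ) else 1 / ((Q : ℝ) * d * ((j / d : ℕ) : ℝ)))
    split_ifs with h0
    · rw [inv_eq_one_div]
      apply one_div_le_one_div_of_le hdr
      exact_mod_cast Nat.le_of_dvd (by omega) hj.2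
    · rw [inv_eq_one_div]
      have h2 : 0 < j / d := Nat.pos_of_ne_zero h0
      have h2r : (0 : ℝ) < ((j / d : ℕ) : ℝ) := by exact_mod_cast h2
      apply one_div_le_one_div_of_le (by positivity)
      have h3 : d * (j / d) ≤ j := Nat.mul_div_le j d
      have h4 : Q * d * (j / d) ≤ 1 + Q * j := by
        calc Q * d * (j / d) = Q * (d * (j / d)) := by ring
          _ ≤ Q * j := Nat.mul_le_mul_left _ h3
          _ ≤ 1 + Q * j := by omega
      exact_mod_cast h4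
  have h2 : Set.InjOn (fun j => j / d) (Jd : Set ℕ) := by
    intro a ha b hb hab
    rw [mem_coe, hJd, mem_filter] at ha hb
    have h3 : (1 + Q * a) ≡ (1 + Q * b) [MOD d] :=
      ((Nat.modEq_zero_iff_dvd.2 ha.2).trans (Nat.modEq_zero_iff_dvd.2 hb.2).symm)
    have h4 : Q * a ≡ Q * b [MOD d] := Nat.ModEq.add_left_cancel' 1 h3
    have h5 : a ≡ b [MOD d] := Nat.ModEq.cancel_left_of_coprime hc h4
    have h6 : a / d = b / d := hab
    have h7 : a % d = b % d := h5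
    rw [← Nat.div_add_mod a d, ← Nat.div_add_mod b d, h6, h7]
  calc ∑ j ∈ Jd, (((1 + Q * j : ℕ) : ℝ))⁻¹ ≤ ∑ j ∈ Jd, F (j / d) := sum_le_sum h1
    _ = ∑ i ∈ Jd.image (fun j => j / d), F i := by
        rw [sum_image]
        exact h2
    _ ≤ ∑ i ∈ range (K Q Y + 1), F i := by
        apply sum_le_sum_of_subset_of_nonneg
        · intro i hi
          rw [mem_image] at hi
          obtain ⟨j, hj, rfl⟩ := hi
          rw [hJd, mem_filter, mem_range] at hj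
          rw [mem_range]
          exact lt_of_le_of_lt (Nat.div_le_self _ _) hj.1
        · intro i _ _
          exact hF i
    _ = (1 / d) * (1 + H Q Y / Q) := by
        rw [sum_range_succ']
        have h3 : F 0 = 1 / (d : ℝ) := if_pos rfl
        have h4 : ∀ i, F (i + 1) = (1 / ((Q : ℝ) * d)) * ((i : ℝ) + 1)⁻¹ := by
          intro i
          show (if i + 1 = 0 then 1 / (d : ℝ) else 1 / ((Q : ℝ) * d * ((i + 1 : ℕ) : ℝ))) = _
          rw [if_neg (Nat.succ_ne_zero i)]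
          push_cast
          field_simp
        rw [h3, sum_congr rfl fun i _ => h4 i, ← mul_sum]
        unfold H
        field_simp
        ring

theorem Sd_le' {Q Y d : ℕ} (hQ : 0 < Q) (hY : 1 ≤ Y) (hd : 0 < d) (hc : Nat.Coprime d Q) :
    Sd Q Y d ≤ 2 * SS Q Y / d := by
  have hdr : (0 : ℝ) < d := by exact_mod_cast hd
  refine (Sd_le hQ hY hd hc).trans ?_
  have := SS_ge hQ hY
  rw [div_mul_eq_mul_div, one_mul, div_le_div_iff_of_pos_right hdr]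
  linarith

theorem Sd_nonneg (Q Y d : ℕ) : 0 ≤ Sd Q Y d := by
  unfold Sd
  refine sum_nonneg fun m _ => ?_
  split_ifs <;> positivity

theorem SS_nonneg (Q Y : ℕ) : 0 ≤ SS Q Y := by
  unfold SS
  exact sum_nonneg fun m _ => by positivity

/-- all tuples -/
def T8 (Q Y : ℕ) : Finset (Fin 8 → ℕ) := Fintype.piFinset (fun _ : Fin 8 => Z Q Y)

/-- the weight of a tuple with divisibility conditions at the places in `I` -/
noncomputable def W (I : Finset (Fin 8)) (d : ℕ) (n : Fin 8 → ℕ) : ℝ :=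
  ∏ k, if k ∈ I then (if d ∣ n k then ((n k : ℝ))⁻¹ else 0) else ((n k : ℝ))⁻¹

theorem W_nonneg (I : Finset (Fin 8)) (d : ℕ) (n : Fin 8 → ℕ) : 0 ≤ W I d n := by
  unfold W
  refine prod_nonneg fun k _ => ?_
  split_ifs <;> positivity

theorem W_eq {I : Finset (Fin 8)} {d : ℕ} {n : Fin 8 → ℕ} (h : ∀ k ∈ I, d ∣ n k) :
    W I d n = (∏ i, (n i : ℝ))⁻¹ := by
  unfold W
  rw [← prod_inv_distrib]
  refine prod_congr rfl fun k _ => ?_
  split_ifs with h1 h2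
  · rfl
  · exact absurd (h k h1) h2
  · rfl

theorem sum_W (Q Y : ℕ) (I : Finset (Fin 8)) (d : ℕ) :
    ∑ n ∈ T8 Q Y, W I d n = Sd Q Y d ^ I.card * SS Q Y ^ (8 - I.card) := by
  unfold T8 W
  rw [← prod_univ_sum (fun _ : Fin 8 => Z Q Y)
    (fun k m => if k ∈ I then (if d ∣ m then ((m : ℝ))⁻¹ else 0) else ((m : ℝ))⁻¹)]
  have h1 : ∀ k : Fin 8, ∑ m ∈ Z Q Y, (if k ∈ I then (if d ∣ m then ((m : ℝ))⁻¹ else 0)
      else ((m : ℝ))⁻¹) = if k ∈ I then Sd Q Y d else SS Q Y := by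
    intro k
    by_cases h : k ∈ I
    · simp only [h, if_true]
      rfl
    · simp only [h, if_false]
      rfl
  rw [prod_congr rfl fun k _ => h1 k, prod_ite, prod_const, prod_const]
  congr 2
  · congr 1
    ext k
    simp
  · have h2 : (univ.filter fun x => x ∉ I) = univ \ I := by
      ext k
      simp
    rw [h2, card_sdiff_of_subset (subset_univ _), card_univ, Fintype.card_fin]

theorem sum_all (Q Y : ℕ) : ∑ n ∈ T8 Q Y, (∏ i, (n i : ℝ))⁻¹ = SS Q Y ^ 8 := by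
  have h := sum_W Q Y ∅ 1
  rw [card_empty, pow_zero, one_mul] at h
  rw [← h]
  exact sum_congr rfl fun n _ => (W_eq (by simp)).symm

/-- the moduli -/
def P (Q Y : ℕ) : Finset ℕ := (Ioc 256 Y).filter (fun p => Nat.Coprime p Q)

theorem mem_T8 {Q Y : ℕ} {n : Fin 8 → ℕ} : n ∈ T8 Q Y ↔ ∀ i, (1 ≤ n i ∧ n i ≤ Y) ∧
    n i ≡ 1 [MOD Q] := by
  unfold T8 Z
  rw [Fintype.mem_piFinset]
  simp only [mem_filter, mem_Icc]

theorem Tup_sub (Q Y : ℕ) : Tup Q Y ⊆ T8 Q Y := by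
  classical
  intro n hn
  unfold Tup at hn
  rw [mem_filter, Fintype.mem_piFinset] at hn
  rw [mem_T8]
  intro i
  have := hn.1 i
  rw [mem_filter, mem_Icc] at this
  exact ⟨this.1, this.2.1⟩

theorem notTup {Q Y : ℕ} (hsm : ∀ p : ℕ, p.Prime → p ≤ 256 → p ∣ Q) {n : Fin 8 → ℕ}
    (hn : n ∈ T8 Q Y) (hn' : n ∉ Tup Q Y) :
    (∃ p ∈ P Q Y, ∃ i, p ^ 2 ∣ n i) ∨ (∃ p ∈ P Q Y, ∃ i j, i < j ∧ p ∣ n i ∧ p ∣ n j) := by
  classical
  rw [mem_T8] at hn
  have hP : ∀ p : ℕ, p.Prime → ∀ i, p ∣ n i → p ∈ P Q Y := by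
    intro p hp i hpi
    have h1 : Nat.Coprime (n i) Q := by
      have h2 : Nat.gcd (n i) Q = Nat.gcd 1 Q := (hn i).2.gcd_eq
      rw [Nat.coprime_iff_gcd_eq_one, h2, Nat.gcd_one_left]
    have h2 : Nat.Coprime p Q := Nat.Coprime.coprime_dvd_left hpi h1
    unfold P
    rw [mem_filter, mem_Ioc]
    refine ⟨⟨?_, ?_⟩, h2⟩
    · by_contra h3
      have h4 := hsm p hp (by omega)
      exact hp.one_lt.ne' (Nat.dvd_one.1 (h2 ▸ Nat.dvd_gcd dvd_rfl h4))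
    · exact (Nat.le_of_dvd (hn i).1.1 hpi).trans (hn i).1.2
  by_cases hsq : ∀ i, Squarefree (n i)
  · right
    have h1 : ¬ ∀ i j, i ≠ j → Nat.Coprime (n i) (n j) := by
      intro h2
      apply hn'
      unfold Tup
      rw [mem_filter, Fintype.mem_piFinset]
      refine ⟨fun i => ?_, h2⟩
      rw [mem_filter, mem_Icc]
      exact ⟨(hn i).1, (hn i).2, hsq i⟩
    push Not at h1
    obtain ⟨i, j, hij, hc⟩ := h1
    obtain ⟨p, hp, hpd⟩ := Nat.exists_prime_and_dvd hc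
    have hi := hpd.trans (Nat.gcd_dvd_left _ _)
    have hj := hpd.trans (Nat.gcd_dvd_right _ _)
    refine ⟨p, hP p hp i hi, ?_⟩
    rcases lt_or_gt_of_ne hij with h | h
    · exact ⟨i, j, h, hi, hj⟩
    · exact ⟨j, i, h, hj, hi⟩
  · left
    push Not at hsq
    obtain ⟨i, hi⟩ := hsq
    rw [Nat.squarefree_iff_prime_squarefree] at hi
    push Not at hi
    obtain ⟨p, hp, hpp⟩ := hi
    refine ⟨p, hP p hp i ((Dvd.intro _ rfl).trans hpp), i, ?_⟩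
    rw [sq]
    exact hpp

theorem pointwise {Q Y : ℕ} (hsm : ∀ p : ℕ, p.Prime → p ≤ 256 → p ∣ Q) {n : Fin 8 → ℕ}
    (hn : n ∈ T8 Q Y) :
    (∏ i, (n i : ℝ))⁻¹ ≤ (if n ∈ Tup Q Y then (∏ i, (n i : ℝ))⁻¹ else 0) +
      ∑ p ∈ P Q Y, (∑ i, W {i} (p ^ 2) n + ∑ i, ∑ j ∈ Ioi i, W {i, j} p n) := by
  classical
  have h0 : ∀ p, 0 ≤ (∑ i, W {i} (p ^ 2) n + ∑ i, ∑ j ∈ Ioi i, W {i, j} p n) := fun p =>
    add_nonneg (sum_nonneg fun i _ => W_nonneg _ _ _)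
      (sum_nonneg fun i _ => sum_nonneg fun j _ => W_nonneg _ _ _)
  by_cases h : n ∈ Tup Q Y
  · rw [if_pos h]
    have := sum_nonneg (s := P Q Y) fun p _ => h0 p
    linarith
  · rw [if_neg h, zero_add]
    rcases notTup hsm hn h with ⟨p, hp, i, hi⟩ | ⟨p, hp, i, j, hij, hi, hj⟩
    · refine le_trans ?_ (single_le_sum (fun p _ => h0 p) hp)
      have h1 : W {i} (p ^ 2) n = (∏ i, (n i : ℝ))⁻¹ := W_eq (by
        intro k hk
        rw [mem_singleton] at hk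
        rw [hk]
        exact hi)
      rw [← h1]
      have h2 : W {i} (p ^ 2) n ≤ ∑ i, W {i} (p ^ 2) n :=
        single_le_sum (f := fun i => W {i} (p ^ 2) n) (fun i _ => W_nonneg _ _ _) (mem_univ i)
      have h3 : 0 ≤ ∑ i, ∑ j ∈ Ioi i, W {i, j} p n :=
        sum_nonneg fun i _ => sum_nonneg fun j _ => W_nonneg _ _ _
      linarith
    · refine le_trans ?_ (single_le_sum (fun p _ => h0 p) hp)
      have h1 : W {i, j} p n = (∏ i, (n i : ℝ))⁻¹ := W_eq (by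
        intro k hk
        rw [mem_insert, mem_singleton] at hk
        rcases hk with rfl | rfl
        · exact hi
        · exact hj)
      rw [← h1]
      have h2 : W {i, j} p n ≤ ∑ j ∈ Ioi i, W {i, j} p n :=
        single_le_sum (f := fun j => W {i, j} p n) (fun i _ => W_nonneg _ _ _) (mem_Ioi.2 hij)
      have h4 : ∑ j ∈ Ioi i, W {i, j} p n ≤ ∑ i, ∑ j ∈ Ioi i, W {i, j} p n :=
        single_le_sum (f := fun i => ∑ j ∈ Ioi i, W {i, j} p n)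
          (fun i _ => sum_nonneg fun j _ => W_nonneg _ _ _) (mem_univ i)
      have h3 : 0 ≤ ∑ i, W {i} (p ^ 2) n := sum_nonneg fun i _ => W_nonneg _ _ _
      linarith

theorem inv_sq_sum (Q Y : ℕ) : ∑ p ∈ P Q Y, (((p : ℝ)) ^ 2)⁻¹ ≤ 1 / 256 := by
  have h1 : ∑ p ∈ P Q Y, (((p : ℝ)) ^ 2)⁻¹ ≤ ∑ p ∈ Ioc 256 Y, (((p : ℝ)) ^ 2)⁻¹ := by
    apply sum_le_sum_of_subset_of_nonneg (filter_subset _ _)
    intro i _ _
    positivity
  rcases le_or_gt 256 Y with h | h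
  · have h2 := sum_Ioc_inv_sq_le_sub (α := ℝ) (k := 256) (n := Y) (by norm_num) h
    have h3 : (0 : ℝ) ≤ ((Y : ℝ))⁻¹ := by positivity
    push_cast at h2
    norm_num at h2 ⊢
    linarith
  · rw [Ioc_eq_empty (by omega), sum_empty] at h1
    linarith

theorem main_sum {Q Y : ℕ} (hQ : 0 < Q) (hsm : ∀ p : ℕ, p.Prime → p ≤ 256 → p ∣ Q) (hY : 1 ≤ Y) :
    SS Q Y ^ 8 / 2 ≤ ∑ n ∈ Tup Q Y, (∏ i, (n i : ℝ))⁻¹ := by
  classical
  have h1 := sum_le_sum fun n (hn : n ∈ T8 Q Y) => pointwise hsm hn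
  rw [sum_all, sum_add_distrib, sum_comm] at h1
  have h2 : ∑ n ∈ T8 Q Y, (if n ∈ Tup Q Y then (∏ i, (n i : ℝ))⁻¹ else 0) =
      ∑ n ∈ Tup Q Y, (∏ i, (n i : ℝ))⁻¹ := by
    rw [← sum_filter, filter_mem_eq_inter, inter_eq_right.2 (Tup_sub Q Y)]
  rw [h2] at h1
  set S := SS Q Y with hS
  have hS0 : 0 ≤ S := SS_nonneg Q Y
  have h3 : ∀ p ∈ P Q Y, ∑ n ∈ T8 Q Y, (∑ i, W {i} (p ^ 2) n + ∑ i, ∑ j ∈ Ioi i, W {i, j} p n) ≤
      128 * S ^ 8 * (((p : ℝ)) ^ 2)⁻¹ := by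
    intro p hp
    unfold P at hp
    rw [mem_filter, mem_Ioc] at hp
    have hp0 : 0 < p := by omega
    have hpr : (0 : ℝ) < p := by exact_mod_cast hp0
    rw [sum_add_distrib, sum_comm]
    have e1 : ∀ i : Fin 8, ∑ n ∈ T8 Q Y, W {i} (p ^ 2) n = Sd Q Y (p ^ 2) * S ^ 7 := by
      intro i
      rw [sum_W, card_singleton, pow_one]
    have e2 : ∀ i : Fin 8, ∀ j ∈ Ioi i, ∑ n ∈ T8 Q Y, W {i, j} p n = Sd Q Y p ^ 2 * S ^ 6 := by
      intro i j hj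
      rw [sum_W, card_pair (mem_Ioi.1 hj).ne]
    rw [sum_congr rfl fun i _ => e1 i]
    have e3 : ∑ n ∈ T8 Q Y, ∑ i, ∑ j ∈ Ioi i, W {i, j} p n =
        ∑ i : Fin 8, ∑ j ∈ Ioi i, Sd Q Y p ^ 2 * S ^ 6 := by
      rw [sum_comm]
      refine sum_congr rfl fun i _ => ?_
      rw [sum_comm]
      exact sum_congr rfl fun j hj => e2 i j hj
    rw [e3]
    simp only [sum_const, card_univ, Fintype.card_fin, nsmul_eq_mul]
    rw [← sum_mul]
    have e4 : ∑ i : Fin 8, (((Ioi i).card : ℕ) : ℝ) = 28 := by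
      have : ∑ i : Fin 8, (Ioi i).card = 28 := by decide
      exact_mod_cast this
    rw [e4]
    have b1 : Sd Q Y (p ^ 2) ≤ 2 * S / (p : ℝ) ^ 2 := by
      have := Sd_le' hQ hY (d := p ^ 2) (by positivity) (hp.2.pow_left 2)
      push_cast at this
      exact this
    have b2 : Sd Q Y p ≤ 2 * S / p := Sd_le' hQ hY hp0 hp.2
    have b3 : Sd Q Y p ^ 2 ≤ (2 * S / p) ^ 2 := pow_le_pow_left₀ (Sd_nonneg _ _ _) b2 2
    have b4 : Sd Q Y (p ^ 2) * S ^ 7 ≤ (2 * S / (p : ℝ) ^ 2) * S ^ 7 :=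
      mul_le_mul_of_nonneg_right b1 (by positivity)
    have b5 : Sd Q Y p ^ 2 * S ^ 6 ≤ (2 * S / p) ^ 2 * S ^ 6 :=
      mul_le_mul_of_nonneg_right b3 (by positivity)
    have b6 : ((8 : ℕ) : ℝ) * ((2 * S / (p : ℝ) ^ 2) * S ^ 7) + 28 * ((2 * S / p) ^ 2 * S ^ 6) =
        128 * S ^ 8 * (((p : ℝ)) ^ 2)⁻¹ := by
      push_cast
      field_simp
      ring
    rw [← b6]
    push_cast
    linarith
  have h4 : ∑ p ∈ P Q Y, ∑ n ∈ T8 Q Y,
      (∑ i, W {i} (p ^ 2) n + ∑ i, ∑ j ∈ Ioi i, W {i, j} p n) ≤ S ^ 8 / 2 := by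
    calc _ ≤ ∑ p ∈ P Q Y, 128 * S ^ 8 * (((p : ℝ)) ^ 2)⁻¹ := sum_le_sum h3
      _ = 128 * S ^ 8 * ∑ p ∈ P Q Y, (((p : ℝ)) ^ 2)⁻¹ := by rw [mul_sum]
      _ ≤ 128 * S ^ 8 * (1 / 256) := mul_le_mul_of_nonneg_left (inv_sq_sum Q Y) (by positivity)
      _ = S ^ 8 / 2 := by ring
  linarith

theorem H_ge (Q Y : ℕ) : Real.log ((K Q Y : ℝ) + 1) ≤ H Q Y := by
  have h := log_add_one_le_harmonic (K Q Y)
  unfold H
  unfold harmonic at h
  push_cast at h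
  exact h

end TUP

open TUP

theorem t_TUP : S_TUP := by
  intro Q hQ hsm
  have hQr : (0 : ℝ) < Q := by exact_mod_cast hQ
  refine ⟨(1 / 2) * (1 / (4 * Q)) ^ 8, by positivity, Q ^ 2, fun Y hY => ?_⟩
  have hY1 : 1 ≤ Y := le_trans (Nat.one_le_pow _ _ hQ) hY
  have hYr : (0 : ℝ) < Y := by exact_mod_cast hY1
  have h1 : Real.log Y / 2 ≤ H Q Y := by
    refine le_trans ?_ (H_ge Q Y)
    have h2 : (Y : ℝ) / Q ≤ (K Q Y : ℝ) + 1 := by
      rw [div_le_iff₀ hQr]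
      have h3 : Y ≤ (K Q Y + 1) * Q := by
        unfold K
        have h4 := Nat.div_add_mod (Y - 1) Q
        have h5 := Nat.mod_lt (Y - 1) hQ
        have h6 : ((Y - 1) / Q + 1) * Q = Q * ((Y - 1) / Q) + Q := by ring
        omega
      exact_mod_cast h3
    have h3 : Real.log ((Y : ℝ) / Q) ≤ Real.log ((K Q Y : ℝ) + 1) :=
      Real.log_le_log (by positivity) h2
    refine le_trans ?_ h3
    rw [Real.log_div hYr.ne' hQr.ne']
    have h4 : Real.log ((Q : ℝ) ^ 2) ≤ Real.log Y := Real.log_le_log (by positivity)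
      (by exact_mod_cast hY)
    rw [Real.log_pow] at h4
    push_cast at h4
    linarith
  have h2 : (1 / (4 * Q)) * Real.log Y ≤ SS Q Y := by
    refine le_trans ?_ (SS_ge hQ hY1)
    have h3 : Real.log Y / 2 / Q ≤ H Q Y / Q := div_le_div_of_nonneg_right h1 hQr.le
    have h4 : (1 / (4 * (Q : ℝ))) * Real.log Y = (1 / 2) * (Real.log Y / 2 / Q) := by
      field_simp
      ring
    rw [h4]
    linarith
  have h3 : 0 ≤ Real.log Y := Real.log_nonneg (by exact_mod_cast hY1)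
  have h4 : ((1 / (4 * Q)) * Real.log Y) ^ 8 ≤ SS Q Y ^ 8 :=
    pow_le_pow_left₀ (by positivity) h2 8
  have h5 := main_sum hQ hsm hY1
  rw [mul_pow] at h4
  linarith

end Pool.Agent.T2h88.LG
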