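import Pool.Agent.T2h88.LG.Stm

set_option autoImplicit false

open Finset

namespace Pool.Agent.T2h88.LG

namespace VC

theorem pos_of_tup {Q Y : ℕ} {n : Fin 8 → ℕ} (h : n ∈ Tup Q Y) (i : Fin 8) : 0 < n i := by
  classical
  unfold Tup at h
  rw [Finset.mem_filter, Fintype.mem_piFinset] at h
  have h1 := h.1 i
  rw [Finset.mem_filter, Finset.mem_Icc] at h1
  exact h1.1.1

end VC

theorem t_VC : S_VC := by
  intro Q g ρ Y X n α β γ ε hP hR
  have hg : 0 < g := Nat.pos_of_dvd_of_pos hP.gQ hP.Q0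
  have hQ := hP.Q0
  have hn := fun i => VC.pos_of_tup hR.tup i
  have hα : 0 < α := Nat.pos_of_ne_zero hR.sa.ne_zero
  have hβ : 0 < β := Nat.pos_of_ne_zero hR.sb.ne_zero
  have hγ : 0 < γ := Nat.pos_of_ne_zero hR.sc.ne_zero
  have hε : 0 < ε := Nat.pos_of_ne_zero hR.se.ne_zero
  have e1 := hR.e1
  have e2 := hR.e2
  have hn0 := hn 0
  have hn1 := hn 1
  have hn2 := hn 2
  have hn3 := hn 3
  have hn4 := hn 4
  have hn5 := hn 5
  have hn6 := hn 6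
  have hn7 := hn 7
  obtain ⟨u, hu⟩ : ∃ u, u = g * Q ^ 2 * (n 0 * n 1 ^ 2) * α := ⟨_, rfl⟩
  obtain ⟨v, hv⟩ : ∃ v, v = n 2 * n 3 ^ 2 * β := ⟨_, rfl⟩
  obtain ⟨w, hw⟩ : ∃ w, w = n 4 * n 5 ^ 2 * γ := ⟨_, rfl⟩
  obtain ⟨z, hz⟩ : ∃ z, z = n 6 * n 7 ^ 2 * ε := ⟨_, rfl⟩
  obtain ⟨s, hs⟩ : ∃ s, s = Q * (n 1 * n 3 * n 5 * n 7) := ⟨_, rfl⟩
  have hu0 : 0 < u := by rw [hu]; positivity
  have hv0 : 0 < v := by rw [hv]; positivity
  have hw0 : 0 < w := by rw [hw]; positivity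
  have hs0 : 0 < s := by rw [hs]; positivity
  rw [← hu, ← hv, ← hw] at e1
  rw [← hz, ← hu, ← hv] at e2
  have key : val g n α β γ ε * s ^ 2 = u * v * w * z := by
    rw [hs, hu, hv, hw, hz]
    unfold val
    ring
  have hsq : (s : ℚ) ≠ 0 := by exact_mod_cast hs0.ne'
  have huv : v < u := by omega
  have huq : (0 : ℚ) < u := by exact_mod_cast hu0
  have hvq : (0 : ℚ) < v := by exact_mod_cast hv0
  have hspos : (0 : ℚ) < s := by exact_mod_cast hs0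
  have huvq : (v : ℚ) < u := by exact_mod_cast huv
  have e1q : (u : ℚ) = v + w := by exact_mod_cast e1
  have e2q : (z : ℚ) = u + v := by exact_mod_cast e2
  have keyq : (val g n α β γ ε : ℚ) * (s : ℚ) ^ 2 = u * v * w * z := by exact_mod_cast key
  have hwq : (w : ℚ) = u - v := by rw [e1q]; ring
  refine ⟨((u : ℚ) ^ 2 - v ^ 2) / s, 2 * u * v / s, ((u : ℚ) ^ 2 + v ^ 2) / s, ?_, ?_, ?_, ?_, ?_⟩
  · apply div_pos _ hspos
    nlinarith
  · positivity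
  · positivity
  · field_simp
    ring
  · have : (val g n α β γ ε : ℚ) = u * v * w * z / (s : ℚ) ^ 2 := by
      rw [← keyq]; field_simp
    rw [this, hwq, e2q]
    field_simp
    ring

end Pool.Agent.T2h88.LG
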