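import Pool.Agent.T2h88.LG.Stm

set_option autoImplicit false

open Finset

namespace Pool.Agent.T2h88.LG

namespace VM

theorem one_of_tup {Q Y : ℕ} {n : Fin 8 → ℕ} (h : n ∈ Tup Q Y) (i : Fin 8) : ((n i : ℕ) : ZMod Q) = 1 := by
  classical
  unfold Tup at h
  rw [Finset.mem_filter, Fintype.mem_piFinset] at h
  have h1 := h.1 i
  rw [Finset.mem_filter] at h1
  have h2 := (ZMod.natCast_eq_natCast_iff (n i) 1 Q).2 h1.2.1
  rw [h2]; simp

end VM

theorem t_VM : S_VM := by
  intro Q g ρ Y X n α β γ ε hP hR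
  have hn := fun i => VM.one_of_tup hR.tup i
  rw [← ZMod.natCast_eq_natCast_iff]
  have hb : (β : ZMod Q) = 1 := by
    have := (ZMod.natCast_eq_natCast_iff β 1 Q).2 hR.β1
    rw [this]; simp
  have ha : (α : ZMod Q) = - (ρ : ZMod Q) := by
    have h := (ZMod.natCast_eq_zero_iff (α + ρ) Q).2 hR.α1
    push_cast at h
    exact eq_neg_of_add_eq_zero_left h
  have e1 := congrArg (fun t : ℕ => (t : ZMod Q)) hR.e1
  have e2 := congrArg (fun t : ℕ => (t : ZMod Q)) hR.e2
  push_cast at e1 e2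
  rw [hn 0, hn 1, hn 2, hn 3, hn 4, hn 5, hb, ZMod.natCast_self] at e1
  rw [hn 0, hn 1, hn 2, hn 3, hn 6, hn 7, hb, ZMod.natCast_self] at e2
  have hc : (γ : ZMod Q) = -1 := by
    linear_combination -e1
  have he : (ε : ZMod Q) = 1 := by
    linear_combination e2
  unfold val
  push_cast
  rw [hn 0, hn 2, hn 4, hn 6, ha, hb, hc, he]
  ring

end Pool.Agent.T2h88.LG
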