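import Pool.Agent.T2h88.LG.Stm

set_option autoImplicit false

open Finset

namespace Pool.Agent.T2h88.LG.VS

theorem mem_tup {Q Y : ℕ} {n : Fin 8 → ℕ} (h : n ∈ Tup Q Y) :
    (∀ i, 1 ≤ n i ∧ n i ≤ Y ∧ n i ≡ 1 [MOD Q] ∧ Squarefree (n i)) ∧
      ∀ i j, i ≠ j → Nat.Coprime (n i) (n j) := by
  classical
  unfold Tup at h
  rw [mem_filter, Fintype.mem_piFinset] at h
  refine ⟨fun i => ?_, h.2⟩
  have := h.1 i
  rw [mem_filter, mem_Icc] at this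
  exact ⟨this.1.1, this.1.2, this.2.1, this.2.2⟩

theorem rough_not_dvd {Y m d p : ℕ} (h : Rough Y m) (hd : 0 < d) (hdY : d ≤ Y) (hp : p.Prime)
    (hpm : p ∣ m) : ¬ p ∣ d := fun hpd => h p hp ((Nat.le_of_dvd hd hpd).trans hdY) hpm

theorem rough_coprime {Y m d : ℕ} (h : Rough Y m) (hd : 0 < d) (hdY : d ≤ Y) :
    Nat.Coprime m d := by
  rw [Nat.coprime_iff_gcd_eq_one]
  by_contra hne
  obtain ⟨p, hp, hpd⟩ := Nat.exists_prime_and_dvd hne
  exact rough_not_dvd h hd hdY hp (hpd.trans (Nat.gcd_dvd_left _ _))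
    (hpd.trans (Nat.gcd_dvd_right _ _))

theorem cop_of {a b : ℕ} (h : ∀ p : ℕ, p.Prime → p ∣ a → p ∣ b → False) : Nat.Coprime a b := by
  rw [Nat.coprime_iff_gcd_eq_one]
  by_contra hne
  obtain ⟨p, hp, hpd⟩ := Nat.exists_prime_and_dvd hne
  exact h p hp (hpd.trans (Nat.gcd_dvd_left _ _)) (hpd.trans (Nat.gcd_dvd_right _ _))

end VS

open VS

theorem t_VS : S_VS := by
  intro Q g ρ Y X n α β γ ε hP hQY h
  obtain ⟨hn, hcop⟩ := mem_tup h.tup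
  have hg : 0 < g := Nat.pos_of_dvd_of_pos hP.gQ hP.Q0
  have hgQ : g ≤ Q := Nat.le_of_dvd hP.Q0 hP.gQ
  have hgY : g ≤ Y := hgQ.trans hQY
  have h2Q : 2 ∣ Q := hP.small 2 Nat.prime_two (by norm_num)
  have h2Y : 2 ≤ Y := (Nat.le_of_dvd hP.Q0 h2Q).trans hQY
  have hnQ : ∀ i, Nat.Coprime (n i) Q := by
    intro i
    have h1 := (hn i).2.2.1
    have h2 : Nat.gcd (n i) Q = Nat.gcd 1 Q := h1.gcd_eq
    rw [Nat.coprime_iff_gcd_eq_one, h2, Nat.gcd_one_left]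
  have hng : ∀ i, Nat.Coprime g (n i) := fun i => ((hnQ i).coprime_dvd_right hP.gQ).symm
  -- primes dividing rough numbers
  have bad : ∀ m, Rough Y m → ∀ p : ℕ, p.Prime → p ∣ m → ¬ p ∣ g ∧ ¬ p ∣ Q ∧ ¬ p ∣ 2 ∧
      ∀ i, ¬ p ∣ n i := by
    intro m hm p hp hpm
    exact ⟨rough_not_dvd hm hg hgY hp hpm, rough_not_dvd hm hP.Q0 hQY hp hpm,
      rough_not_dvd hm (by norm_num) h2Y hp hpm,
      fun i => rough_not_dvd hm (hn i).1 (hn i).2.1 hp hpm⟩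
  have nB : ∀ (i j : Fin 8) (m : ℕ), Rough Y m → ∀ p : ℕ, p.Prime → p ∣ m →
      ¬ p ∣ n i * n j ^ 2 := by
    intro i j m hm p hp hpm hd
    obtain ⟨-, -, -, hni⟩ := bad m hm p hp hpm
    rcases (Nat.Prime.dvd_mul hp).1 hd with h1 | h1
    · exact hni i h1
    · exact hni j (hp.dvd_of_dvd_pow h1)
  have nG : ∀ (m : ℕ), Rough Y m → ∀ p : ℕ, p.Prime → p ∣ m →
      ¬ p ∣ g * Q ^ 2 * (n 0 * n 1 ^ 2) := by
    intro m hm p hp hpm hd
    obtain ⟨hpg, hpQ, -, -⟩ := bad m hm p hp hpm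
    rcases (Nat.Prime.dvd_mul hp).1 hd with h1 | h1
    · rcases (Nat.Prime.dvd_mul hp).1 h1 with h2 | h2
      · exact hpg h2
      · exact hpQ (hp.dvd_of_dvd_pow h2)
    · exact nB 0 1 m hm p hp hpm h1
  have nab : ∀ p : ℕ, p.Prime → p ∣ α → p ∣ β → False := by
    intro p hp h1 h2
    exact Nat.not_coprime_of_dvd_of_dvd hp.one_lt h1 h2 h.co
  have e1 := h.e1
  have e2 := h.e2
  have cag : Nat.Coprime α γ := by
    refine cop_of fun p hp h1 h2 => ?_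
    have h3 : p ∣ n 2 * n 3 ^ 2 * β + n 4 * n 5 ^ 2 * γ := by
      rw [← e1]; exact Dvd.dvd.mul_left h1 _
    have h4 : p ∣ n 2 * n 3 ^ 2 * β := (Nat.dvd_add_left (Dvd.dvd.mul_left h2 _)).1 h3
    rcases (Nat.Prime.dvd_mul hp).1 h4 with h5 | h5
    · exact nB 2 3 α h.ra p hp h1 h5
    · exact nab p hp h1 h5
  have cae : Nat.Coprime α ε := by
    refine cop_of fun p hp h1 h2 => ?_
    have h3 : p ∣ g * Q ^ 2 * (n 0 * n 1 ^ 2) * α + n 2 * n 3 ^ 2 * β := by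
      rw [← e2]; exact Dvd.dvd.mul_left h2 _
    have h4 : p ∣ n 2 * n 3 ^ 2 * β := (Nat.dvd_add_right (Dvd.dvd.mul_left h1 _)).1 h3
    rcases (Nat.Prime.dvd_mul hp).1 h4 with h5 | h5
    · exact nB 2 3 α h.ra p hp h1 h5
    · exact nab p hp h1 h5
  have cbg : Nat.Coprime β γ := by
    refine cop_of fun p hp h1 h2 => ?_
    have h3 : p ∣ g * Q ^ 2 * (n 0 * n 1 ^ 2) * α := by
      rw [e1]; exact dvd_add (Dvd.dvd.mul_left h1 _) (Dvd.dvd.mul_left h2 _)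
    rcases (Nat.Prime.dvd_mul hp).1 h3 with h5 | h5
    · exact nG β h.rb p hp h1 h5
    · exact nab p hp h5 h1
  have cbe : Nat.Coprime β ε := by
    refine cop_of fun p hp h1 h2 => ?_
    have h3 : p ∣ g * Q ^ 2 * (n 0 * n 1 ^ 2) * α + n 2 * n 3 ^ 2 * β := by
      rw [← e2]; exact Dvd.dvd.mul_left h2 _
    have h4 : p ∣ g * Q ^ 2 * (n 0 * n 1 ^ 2) * α := (Nat.dvd_add_left (Dvd.dvd.mul_left h1 _)).1 h3
    rcases (Nat.Prime.dvd_mul hp).1 h4 with h5 | h5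
    · exact nG β h.rb p hp h1 h5
    · exact nab p hp h5 h1
  have cge : Nat.Coprime γ ε := by
    refine cop_of fun p hp h1 h2 => ?_
    have h3 : p ∣ 2 * (n 2 * n 3 ^ 2) * β + n 4 * n 5 ^ 2 * γ := by
      have : 2 * (n 2 * n 3 ^ 2) * β + n 4 * n 5 ^ 2 * γ = n 6 * n 7 ^ 2 * ε := by
        rw [e2, e1]; ring
      rw [this]; exact Dvd.dvd.mul_left h2 _
    have h4 : p ∣ 2 * (n 2 * n 3 ^ 2) * β := (Nat.dvd_add_left (Dvd.dvd.mul_left h1 _)).1 h3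
    have h6 : p ∣ β := by
      rcases (Nat.Prime.dvd_mul hp).1 h4 with h5 | h5
      · rcases (Nat.Prime.dvd_mul hp).1 h5 with h6 | h6
        · exact absurd h6 (bad γ h.rc p hp h1).2.2.1
        · exact absurd h6 (nB 2 3 γ h.rc p hp h1)
      · exact h5
    exact Nat.not_coprime_of_dvd_of_dvd hp.one_lt h6 h1 cbg
  have rg : ∀ m, Rough Y m → Nat.Coprime g m := fun m hm => (rough_coprime hm hg hgY).symm
  have rn : ∀ m, Rough Y m → ∀ i, Nat.Coprime (n i) m := fun m hm i =>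
    (rough_coprime hm (hn i).1 (hn i).2.1).symm
  have nn : ∀ i j : Fin 8, i ≠ j → Nat.Coprime (n i) (n j) := hcop
  -- the four factors
  have sq : ∀ (i : Fin 8) (m : ℕ), Rough Y m → Squarefree m → Squarefree (n i * m) := by
    intro i m hm hs
    rw [Nat.squarefree_mul_iff]
    exact ⟨rn m hm i, (hn i).2.2.2, hs⟩
  have cf : ∀ (i j : Fin 8) (m k : ℕ), i ≠ j → Rough Y m → Rough Y k → Nat.Coprime m k →
      Nat.Coprime (n i * m) (n j * k) := by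
    intro i j m k hij hm hk hmk
    apply Nat.Coprime.mul_left
    · exact Nat.Coprime.mul_right (nn i j hij) (rn k hk i)
    · exact Nat.Coprime.mul_right (rn m hm j).symm hmk
  have cg : ∀ (i : Fin 8) (m : ℕ), Rough Y m → Nat.Coprime g (n i * m) := fun i m hm =>
    Nat.Coprime.mul_right (hng i) (rg m hm)
  unfold val
  rw [Nat.squarefree_mul_iff, Nat.squarefree_mul_iff, Nat.squarefree_mul_iff,
    Nat.squarefree_mul_iff]
  refine ⟨?_, ⟨?_, ⟨?_, ⟨cg 0 α h.ra, hP.gs, sq 0 α h.ra h.sa⟩, sq 2 β h.rb h.sb⟩,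
    sq 4 γ h.rc h.sc⟩, sq 6 ε h.re h.se⟩
  · exact Nat.Coprime.mul_left (Nat.Coprime.mul_left (Nat.Coprime.mul_left (cg 6 ε h.re)
      (cf 0 6 α ε (by decide) h.ra h.re cae)) (cf 2 6 β ε (by decide) h.rb h.re cbe))
      (cf 4 6 γ ε (by decide) h.rc h.re cge)
  · exact Nat.Coprime.mul_left (Nat.Coprime.mul_left (cg 4 γ h.rc)
      (cf 0 4 α γ (by decide) h.ra h.rc cag)) (cf 2 4 β γ (by decide) h.rb h.rc cbg)
  · exact Nat.Coprime.mul_left (cg 2 β h.rb) (cf 0 2 α β (by decide) h.ra h.rb h.co)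

end Pool.Agent.T2h88.LG
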