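import Mathlib
import Pool.Agent.T2h88.LG.Stm

set_option autoImplicit false

/-!
# VX: the size of the number represented
-/

open Finset

namespace Pool.Agent.T2h88.LG

theorem t_VX : S_VX := by
  intro Q g ρ Y X n α β γ ε hP hR
  have hn : ∀ i, 0 < n i := by
    intro i
    have h := hR.tup
    unfold Tup at h
    rw [Finset.mem_filter, Fintype.mem_piFinset] at h
    have h1 := h.1 i
    rw [Finset.mem_filter, Finset.mem_Icc] at h1
    exact h1.1.1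
  have h1 := hR.e1
  have h2 := hR.e2
  have h3 := hR.size
  obtain ⟨u, hu⟩ : ∃ u, u = g * Q ^ 2 * (n 0 * n 1 ^ 2) * α := ⟨_, rfl⟩
  obtain ⟨v, hv⟩ : ∃ v, v = n 2 * n 3 ^ 2 * β := ⟨_, rfl⟩
  obtain ⟨w, hw⟩ : ∃ w, w = n 4 * n 5 ^ 2 * γ := ⟨_, rfl⟩
  obtain ⟨s, hs⟩ : ∃ s, s = Q * (n 1 * n 3 * n 5 * n 7) := ⟨_, rfl⟩
  have h4 : val g n α β γ ε * s ^ 2 = u * (v * (w * (n 6 * n 7 ^ 2 * ε))) := by
    rw [hu, hv, hw, hs]
    unfold val
    ring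
  rw [← hu, ← hv, ← hw] at h1
  rw [← hu, ← hv] at h2
  rw [← hu, ← hs] at h3
  have h5 : v * (w * (u + v)) ≤ u ^ 3 := by
    rw [h1]
    have h6 : (v + w) ^ 3 = v * (w * (v + w + v)) + (v ^ 3 + v ^ 2 * w + 2 * (v * w ^ 2) + w ^ 3) := by
      ring
    rw [h6]
    exact Nat.le_add_right _ _
  have h6 : val g n α β γ ε * s ^ 2 ≤ X * s ^ 2 := by
    rw [h4, h2]
    calc u * (v * (w * (u + v))) ≤ u * u ^ 3 := Nat.mul_le_mul_left u h5
      _ = u ^ 4 := by ring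
      _ ≤ X * s ^ 2 := h3
  refine Nat.le_of_mul_le_mul_right h6 ?_
  have h7 : 0 < s := by
    rw [hs]
    exact Nat.mul_pos hP.Q0 (Nat.mul_pos (Nat.mul_pos (Nat.mul_pos (hn 1) (hn 3)) (hn 5)) (hn 7))
  positivity

end Pool.Agent.T2h88.LG
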