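import Pool.Agent.T2h88.LG.T_ONE
import Pool.Agent.T2h88.LG.T_SV
import Pool.Agent.T2h88.LG.T_SQ
import Pool.Agent.T2h88.LG.T_DB
import Pool.Agent.T2h88.LG.T_BASE
import Pool.Agent.T2h88.LG.T_VC
import Pool.Agent.T2h88.LG.T_VX
import Pool.Agent.T2h88.LG.T_VM
import Pool.Agent.T2h88.LG.T_VS
import Pool.Agent.T2h88.LG.T_INJ
import Pool.Agent.T2h88.LG.T_DIV
import Pool.Agent.T2h88.LG.T_TUP
import Pool.Agent.T2h88.LG.T_MAIN
import Pool.Agent.T2h88.LG.T_FIN

set_option autoImplicit false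

namespace Pool.Agent.T2h88.LG

/-- **Many squarefree congruent numbers in every residue class** which contains a squarefree number. -/
theorem main : S_FIN :=
  t_FIN (t_MAIN t_VC t_VX t_VM t_VS t_INJ t_DIV t_TUP (t_ONE t_SV t_SQ t_DB t_BASE))

end Pool.Agent.T2h88.LG
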